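import Pool.Agent.H37EP.Stm

/-!
# F4: numerical bound
-/

set_option autoImplicit false

namespace Pool.Agent.H37EP.F4

open Finset Pool.Agent.W23.DC

/-- a polynomial majorant of `1 / (x - 1)` on `[3, 4]` -/
noncomputable def r (x : ℝ) : ℝ := 8 / 121 * (x - 3) ^ 2 - 28 / 121 * (x - 3) + 1 / 2

lemma r_ge {x : ℝ} (hx : 3 ≤ x) : 1 / (x - 1) ≤ r x := by
  rw [div_le_iff₀ (by linarith)]
  have h : r x * (x - 1) - 1 = 8 / 121 * ((x - 3) * (x - 3 - 3 / 4) ^ 2) := by
    unfold r
    ring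
  have h2 : 0 ≤ (x - 3) * (x - 3 - 3 / 4) ^ 2 := mul_nonneg (by linarith) (sq_nonneg _)
  linarith

/-- the antiderivative -/
noncomputable def Ad (x : ℝ) : ℝ :=
  8 / 121 * ((x - 2) ^ 3 / 3 * Real.log (x - 2) - (x - 2) ^ 3 / 9) -
    4 / 11 * ((x - 2) ^ 2 / 2 * Real.log (x - 2) - (x - 2) ^ 2 / 4) +
    193 / 242 * ((x - 2) * Real.log (x - 2) - (x - 2))

lemma Ad_deriv {x : ℝ} (hx : 3 ≤ x) : HasDerivAt Ad (Real.log (x - 2) * r x) x := by
  have hx0 : x - 2 ≠ 0 := by linarith [hx] |> fun h : (0 : ℝ) < x - 2 => h.ne'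
  have h1 : HasDerivAt (fun x : ℝ => x - 2) 1 x := (hasDerivAt_id x).sub_const 2
  have h2 : HasDerivAt (fun x : ℝ => Real.log (x - 2)) (1 / (x - 2)) x := h1.log hx0
  have h3 : HasDerivAt (fun x : ℝ => (x - 2) ^ 3) (3 * (x - 2) ^ 2 * 1) x :=
    (h1.fun_pow 3).congr_deriv (by norm_num)
  have h4 : HasDerivAt (fun x : ℝ => (x - 2) ^ 2) (2 * (x - 2) * 1) x :=
    (h1.fun_pow 2).congr_deriv (by norm_num)
  have h := (((((h3.div_const 3).mul h2).sub (h3.div_const 9)).const_mul (8 / 121)).sub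
    ((((h4.div_const 2).mul h2).sub (h4.div_const 4)).const_mul (4 / 11))).add
    (((h1.mul h2).sub h1).const_mul (193 / 242))
  refine h.congr_deriv ?_
  unfold r
  field_simp
  ring

lemma cont1 : ContinuousOn (fun x : ℝ => Real.log (x - 2) * r x) (Set.uIcc 3 4) := by
  rw [Set.uIcc_of_le (by norm_num)]
  apply ContinuousOn.mul
  · apply ContinuousOn.log (by fun_prop)
    intro x hx
    have := hx.1
    exact (show (0 : ℝ) < x - 2 by linarith).ne'
  · unfold r
    fun_prop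

lemma cont2 : ContinuousOn (fun x : ℝ => Real.log (x - 2) / (x - 1)) (Set.uIcc 3 4) := by
  rw [Set.uIcc_of_le (by norm_num)]
  apply ContinuousOn.div
  · apply ContinuousOn.log (by fun_prop)
    intro x hx
    have := hx.1
    exact (show (0 : ℝ) < x - 2 by linarith).ne'
  · fun_prop
  · intro x hx
    have := hx.1
    exact (show (0 : ℝ) < x - 1 by linarith).ne'

lemma int_r : ∫ x in (3 : ℝ)..4, Real.log (x - 2) * r x ≤ 148 / 1000 := by
  have h1 : ∫ x in (3 : ℝ)..4, Real.log (x - 2) * r x = Ad 4 - Ad 3 := by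
    apply intervalIntegral.integral_eq_sub_of_hasDerivAt
    · intro x hx
      rw [Set.uIcc_of_le (by norm_num)] at hx
      exact Ad_deriv hx.1
    · exact cont1.intervalIntegrable
  rw [h1]
  unfold Ad
  have e1 : (4 : ℝ) - 2 = 2 := by norm_num
  have e2 : (3 : ℝ) - 2 = 1 := by norm_num
  rw [e1, e2, Real.log_one]
  have := Real.log_two_lt_d9
  linarith

lemma int_le : ∫ x in (3 : ℝ)..4, Real.log (x - 2) / (x - 1) ≤ 148 / 1000 := by
  refine le_trans ?_ int_r
  apply intervalIntegral.integral_mono_on (by norm_num) cont2.intervalIntegrable cont1.intervalIntegrable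
  intro x hx
  have h0 : 0 ≤ Real.log (x - 2) := Real.log_nonneg (by linarith [hx.1])
  rw [div_eq_mul_one_div]
  exact mul_le_mul_of_nonneg_left (r_ge hx.1) h0

theorem t : Pool.Agent.H37EP.F4 := by
  intro A0 F f hSF
  have hA := hSF.pos
  have h1 := hSF.eF 4 (by norm_num)
  have h2 : ∫ x in (3 : ℝ)..4, f (x - 1) = A0 * ∫ x in (3 : ℝ)..4, Real.log (x - 2) / (x - 1) := by
    rw [← intervalIntegral.integral_const_mul]
    apply intervalIntegral.integral_congr
    intro x hx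
    rw [Set.uIcc_of_le (by norm_num)] at hx
    show f (x - 1) = A0 * (Real.log (x - 2) / (x - 1))
    rw [hSF.f4 (x - 1) (by linarith [hx.1]) (by linarith [hx.2])]
    have : x - 1 - 1 = x - 2 := by ring
    rw [this]
    ring
  rw [h2] at h1
  have h3 := mul_le_mul_of_nonneg_left int_le hA.le
  rw [le_div_iff₀ (by norm_num)]
  linarith

end Pool.Agent.H37EP.F4
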