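import Pool.Agent.H37EP.Stm

/-!
# LOW: the lower bound weights
-/

set_option autoImplicit false

namespace Pool.Agent.H37EP.LOW

open Finset Pool.Agent.W23.DC Pool.Agent.Y882 Pool.Agent.Y882.KW

lemma mem_pr {Y : ℕ} {u v : ℝ} {p : ℕ} (hp : p ∈ pr Y u v) : p.Prime ∧ u ≤ tt Y p ∧ tt Y p < v := by
  unfold pr at hp
  rw [mem_filter] at hp
  exact hp.2

open Classical in
theorem t : Pool.Agent.H37EP.LOW := by
  intro A0 F f hSF τ' τ ζ υ gL hζ h2 h4 hττ hτ1 hζυ hυ hG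
  have hτ0 : 0 < τ' := by linarith
  set s : ℝ := τ' / ζ with hs
  have hs2 : 2 < s := by rw [hs, lt_div_iff₀ hζ]; exact h2
  have hs4 : s ≤ 4 := by rw [hs, div_le_iff₀ hζ]; exact h4
  set δ : ℝ := A0 * Real.log (s - 1) / τ' - gL with hδ
  have hδ0 : 0 < δ := by linarith
  refine ⟨1, min ζ 1, zero_le_one, lt_min hζ one_pos, ?_⟩
  intro ε₁ hε₁ hε0
  have hεζ : ε₁ ≤ ζ := hε0.trans (min_le_left _ _)
  have hε1 : ε₁ ≤ 1 := hε0.trans (min_le_right _ _)
  set η' : ℝ := ε₁ * δ with hη'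
  have hη'0 : 0 < η' := by positivity
  obtain ⟨K, hK⟩ := exists_nat_ge (τ' / ε₁)
  have hKτ : τ' ≤ (K + 2) * ε₁ := by
    rw [div_le_iff₀ hε₁] at hK
    nlinarith
  obtain ⟨η₁, hη₁, H⟩ := Pool.Agent.W505.DC.MT Pool.Agent.W505.DC.MI A0 F f hSF ε₁
    η' K hε₁ hε1 hη'0
  refine ⟨η₁, hη₁, ?_⟩
  intro Y hY
  have hY2 : (2 : ℝ) ≤ Y := by exact_mod_cast hY
  have hlY : 0 < Real.log Y := Real.log_pos (by linarith)
  set P := pr Y ε₁ ζ with hP
  set R' := pr Y ζ υ with hR'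
  have hPR : P ∪ R' = pr Y ε₁ υ := by
    ext p
    rw [hP, hR']
    unfold pr
    rw [mem_union, mem_filter, mem_filter, mem_filter]
    constructor
    · rintro (⟨h1, h2, h3, h4⟩ | ⟨h1, h2, h3, h4⟩)
      · exact ⟨h1, h2, h3, h4.trans_le hζυ⟩
      · exact ⟨h1, h2, hεζ.trans h3, h4⟩
    · rintro ⟨h1, h2, h3, h4⟩
      rcases lt_or_ge (tt Y p) ζ with h | h
      · exact Or.inl ⟨h1, h2, h3, h⟩
      · exact Or.inr ⟨h1, h2, h, h4⟩
  have hsiz : Siz P (tt Y) := by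
    refine ⟨fun p hp => (mem_pr hp).1, fun p hp => lt_of_lt_of_le hε₁ (mem_pr hp).2.1, ?_⟩
    intro p hp q hq
    have hp0 : (0 : ℝ) < p := by exact_mod_cast (mem_pr hp).1.pos
    unfold tt
    rw [div_lt_div_iff_of_pos_right hlY, Real.log_lt_log_iff hp0
      (by exact_mod_cast (mem_pr hq).1.pos)]
    exact Nat.cast_lt
  have ht0 : ∀ p, 0 ≤ tt Y p := by
    intro p
    unfold tt
    exact div_nonneg (Real.log_natCast_nonneg p) hlY.le
  set cL : Finset ℕ → ℝ := fun T => if T ⊆ P then lc P (tt Y) K false τ' ζ T else 0 with hcL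
  have hVL : ∀ g : ℕ → ℝ, VV (pr Y ε₁ υ) cL g = VV P (lc P (tt Y) K false τ' ζ) g := by
    intro g
    rw [← hPR, hcL, VV_part P R' (lc P (tt Y) K false τ' ζ) g]
  refine ⟨cL, ?_, ?_, ?_, ?_⟩
  · intro T
    simp only [hcL]
    split_ifs
    · exact lc_le _ _ hsiz K false τ' ζ hτ0.le (fun _ => h2.le) T
    · simp
  · intro T hT hne
    have hTp : ∀ p ∈ T, p.Prime := fun p hp => (mem_pr (hT hp)).1
    have hfin : ∑ p ∈ T, tt Y p ≤ τ := by
      simp only [hcL] at hne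
      split_ifs at hne with h'
      · have hE := lc_EE _ _ hsiz K false τ' ζ hτ0.le (fun _ => h2.le) T hne
        have h5 := EE_sz _ _ hsiz ht0 τ' ζ hτ0.le _ hE
        unfold sz at h5
        rw [Nat.primeFactors_prod (fun p hp => (mem_pr (h' hp)).1)] at h5
        exact h5.trans hττ
      · exact absurd rfl hne
    unfold tt at hfin
    rw [← sum_div, div_le_iff₀ hlY] at hfin
    have hp0 : ∀ p ∈ T, (p : ℝ) ≠ 0 := by
      intro p hp
      have := (hTp p hp).ne_zero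
      exact_mod_cast this
    have h6 : Real.log ((∏ p ∈ T, p : ℕ) : ℝ) = ∑ p ∈ T, Real.log p := by
      push_cast
      rw [Real.log_prod hp0]
    rw [← h6] at hfin
    have hpos : (0 : ℝ) < ((∏ p ∈ T, p : ℕ) : ℝ) := by
      have : 0 < ∏ p ∈ T, p := prod_pos fun p hp => (hTp p hp).pos
      exact_mod_cast this
    rw [← Real.log_le_log_iff hpos (by positivity), Real.log_rpow (by linarith)]
    exact hfin
  · intro N
    rw [hVL]
    exact (lc_ind P (tt Y) hsiz K τ' ζ hτ0.le h2.le (fun p hp => (mem_pr hp).2.2) N).1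
  · intro g hg hM
    have hgP : ∀ p ∈ P, 0 ≤ g p := fun p hp => hg p (by rw [← hPR]; exact mem_union_left _ hp)
    have hM1 : Mer P (tt Y) g ε₁ ζ η₁ := by
      intro x y hx hxy hy
      have h1 := hM x y hx hxy (hy.trans hζυ)
      have h3 : P.filter (fun p => x ≤ tt Y p ∧ tt Y p < y) =
          (pr Y ε₁ υ).filter (fun p => x ≤ tt Y p ∧ tt Y p < y) := by
        ext p
        rw [mem_filter, mem_filter, ← hPR, mem_union]
        constructor
        · rintro ⟨h5, h6⟩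
          exact ⟨Or.inl h5, h6⟩
        · rintro ⟨h5 | h5, h6⟩
          · exact ⟨h5, h6⟩
          · have := (mem_pr h5).2.1
            exfalso
            linarith [h6.2]
      rw [h3]
      exact h1
    have hPε : ∀ p ∈ P, ε₁ ≤ tt Y p := fun p hp => (mem_pr hp).2.1
    have h7 := (H P (tt Y) g ζ (by linarith) hgP hPε hM1 K le_rfl
      τ' ζ hKτ hεζ le_rfl (by linarith) hτ1).2 h2.le
    rw [hVL, lc_V _ _ hsiz K false τ' ζ hτ0.le (fun _ => h2.le)]
    rw [← hs, hSF.f4 s hs2.le hs4] at h7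
    have e1 : ε₁ / ζ * (A0 * Real.log (s - 1) / s) = ε₁ * (A0 * Real.log (s - 1) / τ') := by
      rw [hs]
      field_simp
    rw [e1] at h7
    have e2 : ε₁ * gL = ε₁ * (A0 * Real.log (s - 1) / τ') - η' := by
      rw [hη', hδ]
      ring
    linarith

end Pool.Agent.H37EP.LOW
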