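import Pool.Agent.H37EP.Stm

/-!
# SEGC: one block of middle primes with a fixed level
-/

set_option autoImplicit false

namespace Pool.Agent.H37EP.SEGC

open Finset Pool.Agent.W23.DC Pool.Agent.Y882 Pool.Agent.Y882.KW

lemma mem_pr {Y : ℕ} {u v : ℝ} {p : ℕ} (hp : p ∈ pr Y u v) : p.Prime ∧ u ≤ tt Y p ∧ tt Y p < v := by
  unfold pr at hp
  rw [mem_filter] at hp
  exact hp.2

lemma integ (u v a b : ℝ) (hu : 0 < u) (huv : u ≤ v) :
    ∫ x in u..v, (a - b * x) / x = a * Real.log (v / u) - b * (v - u) := by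
  have hv : 0 < v := by linarith
  have h0 : (0 : ℝ) ∉ Set.uIcc u v := by
    rw [Set.uIcc_of_le huv]
    exact fun h => absurd h.1 (not_le.2 hu)
  have h1 : ∫ x in u..v, (a - b * x) / x = ∫ x in u..v, (a * x⁻¹ - b) := by
    apply intervalIntegral.integral_congr
    intro x hx
    have hx0 : x ≠ 0 := fun h => h0 (h ▸ hx)
    show (a - b * x) / x = a * x⁻¹ - b
    field_simp
  have hi : IntervalIntegrable (fun x : ℝ => a * x⁻¹) MeasureTheory.volume u v := by
    apply IntervalIntegrable.const_mul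
    exact intervalIntegral.intervalIntegrable_inv (fun x hx h => h0 (h ▸ hx)) continuousOn_id
  rw [h1, intervalIntegral.integral_sub hi (by simp), intervalIntegral.integral_const_mul,
    integral_inv h0, intervalIntegral.integral_const, smul_eq_mul]
  ring

open Classical in
theorem t : Pool.Agent.H37EP.SEGC := by
  intro A0 F f hSF τ ζ u v υ a b ta za gM hza hzζ hzt hζu huv hvυ hυ htv hτ ha hb hab hG
  have hζ : 0 < ζ := by linarith
  have hu : 0 < u := by linarith
  have hv : 0 < v := by linarith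
  have hta : 0 < ta := by linarith
  have hζυ : ζ ≤ υ := by linarith
  set F0 : ℝ := F (ta / za) with hF0
  have hF01 : 1 ≤ F0 := hSF.F1 _ (by rw [le_div_iff₀ hza]; linarith)
  set G : ℝ := a * Real.log (v / u) - b * (v - u) with hGdef
  have hw0 : ∀ x, x ≤ v → 0 ≤ a - b * x := by
    intro x hx
    have : b * x ≤ b * v := mul_le_mul_of_nonneg_left hx hb
    linarith
  have hG0 : 0 ≤ G := by
    rw [hGdef, ← integ u v a b hu huv]
    apply intervalIntegral.integral_nonneg huv
    intro x hx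
    exact div_nonneg (hw0 x hx.2) (by linarith [hx.1])
  set δ : ℝ := gM - F0 / za * G with hδ
  have hδ0 : 0 < δ := by linarith
  set κ' : ℝ := min 1 (δ * za / (2 * F0)) with hκ'
  have hκ'0 : 0 < κ' := lt_min one_pos (by positivity)
  have hκ'1 : κ' ≤ 1 := min_le_left _ _
  have hκ'2 : F0 / za * κ' ≤ δ / 2 := by
    calc F0 / za * κ' ≤ F0 / za * (δ * za / (2 * F0)) := by
          apply mul_le_mul_of_nonneg_left (min_le_right _ _) (by positivity)
      _ = δ / 2 := by
          field_simp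
  refine ⟨a, min za 1, ha, lt_min hza one_pos, ?_⟩
  intro ε₁ hε₁ hε0
  have hεz : ε₁ ≤ za := hε0.trans (min_le_left _ _)
  have hε1 : ε₁ ≤ 1 := hε0.trans (min_le_right _ _)
  have hεζ : ε₁ ≤ ζ := hεz.trans hzζ
  set η' : ℝ := ε₁ * δ / (2 * (G + 1)) with hη'
  have hη'0 : 0 < η' := by positivity
  have hlog : 0 ≤ Real.log (1 / ε₁) := by
    apply Real.log_nonneg
    rw [le_div_iff₀ hε₁]
    linarith
  set κ : ℝ := κ' / (2 * Real.log (1 / ε₁) + 2) with hκ
  have hden : 0 < 2 * Real.log (1 / ε₁) + 2 := by linarith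
  have hκ0 : 0 < κ := by positivity
  obtain ⟨K, hK⟩ := exists_nat_ge (ta / ε₁)
  have hKτ : ta ≤ (K + 2) * ε₁ := by
    rw [div_le_iff₀ hε₁] at hK
    nlinarith
  obtain ⟨η₁, hη₁, H⟩ := Pool.Agent.W505.DC.MT Pool.Agent.W505.DC.MI A0 F f hSF ε₁
    η' K hε₁ hε1 hη'0
  obtain ⟨η₂, hη₂, H2⟩ := Pool.Agent.W505.DC.MI ε₁ (κ / (b + 1)) κ (a + 1) hε₁ hε1 (by positivity) hκ0
    (by positivity)
  refine ⟨min η₁ η₂, lt_min hη₁ hη₂, ?_⟩
  intro Y hY
  have hY2 : (2 : ℝ) ≤ Y := by exact_mod_cast hY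
  have hlY : 0 < Real.log Y := Real.log_pos (by linarith)
  set P := pr Y ε₁ ζ with hP
  set R' := pr Y ζ υ with hR'
  set R := pr Y u v with hR
  have hRR' : R ⊆ R' := by
    intro p hp
    rw [hR] at hp
    rw [hR']
    unfold pr at hp ⊢
    rw [mem_filter] at hp ⊢
    exact ⟨hp.1, hp.2.1, hζu.trans hp.2.2.1, hp.2.2.2.trans_le hvυ⟩
  have hPR : P ∪ R' = pr Y ε₁ υ := by
    ext p
    rw [hP, hR']
    unfold pr
    rw [mem_union, mem_filter, mem_filter, mem_filter]
    constructor
    · rintro (⟨h1, h2, h3, h4⟩ | ⟨h1, h2, h3, h4⟩)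
      · exact ⟨h1, h2, h3, h4.trans_le hζυ⟩
      · exact ⟨h1, h2, hεζ.trans h3, h4⟩
    · rintro ⟨h1, h2, h3, h4⟩
      rcases lt_or_ge (tt Y p) ζ with h | h
      · exact Or.inl ⟨h1, h2, h3, h⟩
      · exact Or.inr ⟨h1, h2, h, h4⟩
  have hd : Disjoint P R' := by
    rw [disjoint_left]
    intro p hp hp'
    have h1 := mem_pr hp
    have h2 := mem_pr hp'
    linarith [h1.2.2, h2.2.1]
  have hsiz : Siz P (tt Y) := by
    refine ⟨fun p hp => (mem_pr hp).1, fun p hp => lt_of_lt_of_le hε₁ (mem_pr hp).2.1, ?_⟩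
    intro p hp q hq
    have hp0 : (0 : ℝ) < p := by exact_mod_cast (mem_pr hp).1.pos
    unfold tt
    rw [div_lt_div_iff_of_pos_right hlY, Real.log_lt_log_iff hp0
      (by exact_mod_cast (mem_pr hq).1.pos)]
    exact Nat.cast_lt
  have ht0 : ∀ p, 0 ≤ tt Y p := by
    intro p
    unfold tt
    exact div_nonneg (Real.log_natCast_nonneg p) hlY.le
  have hwR : ∀ q ∈ R, 0 ≤ a - b * tt Y q ∧ a - b * tt Y q ≤ a := by
    intro q hq
    have h1 := (mem_pr hq).2
    refine ⟨hw0 _ h1.2.le, ?_⟩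
    have : 0 ≤ b * tt Y q := mul_nonneg hb (ht0 q)
    linarith
  set cq : ℕ → Finset ℕ → ℝ := fun q T => if q ∈ T ∧ T.erase q ⊆ P then
    (a - b * tt Y q) * lc P (tt Y) K true ta za (T.erase q) else 0 with hcq
  have hVq : ∀ q ∈ R, ∀ g : ℕ → ℝ, VV (pr Y ε₁ υ) (cq q) g =
      g q * ((a - b * tt Y q) * VV P (lc P (tt Y) K true ta za) g) := by
    intro q hq g
    rw [← hPR, hcq]
    rw [VV_one P R' hd q (hRR' hq) (fun U => (a - b * tt Y q) * lc P (tt Y) K true ta za U) g]
    congr 1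
    unfold VV
    rw [mul_sum]
    apply sum_congr rfl
    intro T _
    ring
  refine ⟨fun T => ∑ q ∈ R, cq q T, ?_, ?_, ?_, ?_⟩
  · intro T
    by_cases hex : ∃ q ∈ R, q ∈ T ∧ T.erase q ⊆ P
    · obtain ⟨q, hq, hqT, hqP⟩ := hex
      show |∑ q ∈ R, cq q T| ≤ a
      rw [sum_eq_single q]
      · simp only [hcq]
        rw [if_pos ⟨hqT, hqP⟩, abs_mul, abs_of_nonneg (hwR q hq).1]
        calc (a - b * tt Y q) * |lc P (tt Y) K true ta za (T.erase q)| ≤
            a * 1 := by
              apply mul_le_mul (hwR q hq).2 _ (abs_nonneg _) ha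
              exact lc_le _ _ hsiz K true _ _ hta.le (fun h => by simp at h) _
          _ = a := mul_one a
      · intro q' hq' hne
        simp only [hcq]
        rw [if_neg]
        rintro ⟨h6, -⟩
        have h7 : q' ∈ T.erase q := mem_erase.2 ⟨hne, h6⟩
        exact (disjoint_left.1 hd) (hqP h7) (hRR' hq')
      · intro h; exact absurd hq h
    · push Not at hex
      show |∑ q ∈ R, cq q T| ≤ a
      rw [sum_eq_zero]
      · rw [abs_zero]; exact ha
      · intro q hq
        simp only [hcq]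
        rw [if_neg]
        rintro ⟨h6, h7⟩
        exact hex q hq h6 h7
  · intro T hT hne
    -- size of the products of subsets of `P`
    have hsize : ∀ (U : Finset ℕ), U ⊆ P → lc P (tt Y) K true ta za U ≠ 0 →
        ∑ p ∈ U, tt Y p ≤ ta := by
      intro U hU hne'
      have hE := lc_EE _ _ hsiz K true ta za hta.le (fun h => by simp at h) U hne'
      have h5 := EE_sz _ _ hsiz ht0 ta za hta.le _ hE
      unfold sz at h5
      rwa [Nat.primeFactors_prod (fun p hp => (mem_pr (hU hp)).1)] at h5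
    have hTp : ∀ p ∈ T, p.Prime := fun p hp => (mem_pr (hT hp)).1
    have hfin : ∑ p ∈ T, tt Y p ≤ τ := by
      obtain ⟨q, hq, hq2⟩ := exists_ne_zero_of_sum_ne_zero hne
      simp only [hcq] at hq2
      split_ifs at hq2 with h6
      · have h7 := right_ne_zero_of_mul hq2
        have h8 := hsize (T.erase q) h6.2 h7
        rw [← add_sum_erase _ _ h6.1]
        have h9 := (mem_pr hq).2.2
        linarith
      · exact absurd rfl hq2
    unfold tt at hfin
    rw [← sum_div, div_le_iff₀ hlY] at hfin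
    have hp0 : ∀ p ∈ T, (p : ℝ) ≠ 0 := by
      intro p hp
      have := (hTp p hp).ne_zero
      exact_mod_cast this
    have h6 : Real.log ((∏ p ∈ T, p : ℕ) : ℝ) = ∑ p ∈ T, Real.log p := by
      push_cast
      rw [Real.log_prod hp0]
    rw [← h6] at hfin
    have hpos : (0 : ℝ) < ((∏ p ∈ T, p : ℕ) : ℝ) := by
      have : 0 < ∏ p ∈ T, p := prod_pos fun p hp => (hTp p hp).pos
      exact_mod_cast this
    rw [← Real.log_le_log_iff hpos (by positivity), Real.log_rpow (by linarith)]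
    exact hfin
  · intro N
    set ind : ℕ → ℝ := fun p => if p ∣ N then 1 else 0 with hind
    rw [VV_sum, mul_sum]
    apply sum_le_sum
    intro q hq
    rw [hVq q hq]
    have h3 := lc_ind_up P (tt Y) hsiz K ta za hta.le N
    have h5 : (0 : ℝ) ≤ if q ∣ N then 1 else 0 := by split_ifs <;> norm_num
    calc (if ∀ p ∈ P, ¬ p ∣ N then (1 : ℝ) else 0) * ((a - b * tt Y q) * (if q ∣ N then 1 else 0)) =
        (if q ∣ N then 1 else 0) * ((a - b * tt Y q) * (if ∀ p ∈ P, ¬ p ∣ N then (1 : ℝ) else 0)) := by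
          ring
      _ ≤ ind q * ((a - b * tt Y q) * VV P (lc P (tt Y) K true ta za) ind) := by
          apply mul_le_mul_of_nonneg_left _ h5
          exact mul_le_mul_of_nonneg_left h3 (hwR q hq).1
  · intro g hg hM
    have hgP : ∀ p ∈ P, 0 ≤ g p := fun p hp => hg p (by rw [← hPR]; exact mem_union_left _ hp)
    have hgR : ∀ p ∈ R, 0 ≤ g p := fun p hp => hg p (by rw [← hPR]; exact mem_union_right _ (hRR' hp))
    have hM1 : Mer P (tt Y) g ε₁ ζ η₁ := by
      intro x y hx hxy hy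
      have h1 := hM x y hx hxy (hy.trans hζυ)
      have h3 : P.filter (fun p => x ≤ tt Y p ∧ tt Y p < y) =
          (pr Y ε₁ υ).filter (fun p => x ≤ tt Y p ∧ tt Y p < y) := by
        ext p
        rw [mem_filter, mem_filter, ← hPR, mem_union]
        constructor
        · rintro ⟨h5, h6⟩
          exact ⟨Or.inl h5, h6⟩
        · rintro ⟨h5 | h5, h6⟩
          · exact ⟨h5, h6⟩
          · have := (mem_pr h5).2.1
            exfalso
            linarith [h6.2]
      rw [h3]
      exact h1.trans (min_le_left _ _)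
    have hM2 : Mer (pr Y ε₁ υ) (tt Y) g ε₁ υ η₂ := fun x y hx hxy hy =>
      (hM x y hx hxy hy).trans (min_le_right _ _)
    have hPε : ∀ p ∈ P, ε₁ ≤ tt Y p := fun p hp => (mem_pr hp).2.1
    have h7 := (H P (tt Y) g ζ (by linarith) hgP hPε hM1 K le_rfl
      ta za hKτ hεz hzζ hzt (by linarith)).1
    have hRf : (pr Y ε₁ υ).filter (fun p => u ≤ tt Y p ∧ tt Y p < v) = R := by
      ext p
      rw [hR]
      unfold pr
      rw [mem_filter, mem_filter, mem_filter]
      constructor
      · rintro ⟨⟨h1, h2, h3⟩, h4⟩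
        exact ⟨h1, h2, h4⟩
      · rintro ⟨h1, h2, h4⟩
        exact ⟨⟨h1, h2, (hεζ.trans hζu).trans h4.1, h4.2.trans_le hvυ⟩, h4⟩
    have h8 := H2 (pr Y ε₁ υ) (tt Y) g υ hυ hg hM2 u v (fun x => a - b * x) (hεζ.trans hζu) huv hvυ
      (by fun_prop) (fun x hx => by
        rw [abs_of_nonneg (hw0 x hx.2)]
        have : 0 ≤ b * x := mul_nonneg hb (by linarith [hx.1])
        linarith) (fun x _ y _ hxy => by
        have e1 : a - b * x - (a - b * y) = -(b * (x - y)) := by ring
        rw [e1, abs_neg, abs_mul, abs_of_nonneg hb]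
        calc b * |x - y| ≤ b * (κ / (b + 1)) := mul_le_mul_of_nonneg_left hxy hb
          _ ≤ (b + 1) * (κ / (b + 1)) := by
              apply mul_le_mul_of_nonneg_right (by linarith) (by positivity)
          _ = κ := by field_simp)
    rw [hRf, integ u v a b hu huv, abs_le] at h8
    have e2 : κ * (2 * Real.log (1 / ε₁) + 2) = κ' := by
      rw [hκ]; field_simp
    rw [e2] at h8
    have h9 : ∑ q ∈ R, g q * (a - b * tt Y q) ≤ G + κ' := by linarith [h8.2]
    have h10 : 0 ≤ ∑ q ∈ R, g q * (a - b * tt Y q) :=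
      sum_nonneg fun q hq => mul_nonneg (hgR q hq) (hwR q hq).1
    rw [VV_sum]
    calc ∑ q ∈ R, VV (pr Y ε₁ υ) (cq q) g
        ≤ ∑ q ∈ R, (g q * (a - b * tt Y q)) * (ε₁ / za * F0 + η') := by
          apply sum_le_sum
          intro q hq
          rw [hVq q hq, lc_V _ _ hsiz K true ta za hta.le (fun h => by simp at h), ← mul_assoc]
          exact mul_le_mul_of_nonneg_left h7 (mul_nonneg (hgR q hq) (hwR q hq).1)
      _ = (∑ q ∈ R, g q * (a - b * tt Y q)) * (ε₁ / za * F0 + η') := by rw [sum_mul]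
      _ ≤ (G + κ') * (ε₁ / za * F0 + η') := by
          apply mul_le_mul_of_nonneg_right h9 (by positivity)
      _ = ε₁ * (F0 / za * G) + ε₁ * (F0 / za * κ') + η' * (G + κ') := by ring
      _ ≤ ε₁ * (F0 / za * G) + ε₁ * (δ / 2) + η' * (G + 1) := by
          have := mul_le_mul_of_nonneg_left hκ'2 hε₁.le
          have := mul_le_mul_of_nonneg_left (add_le_add (le_refl G) hκ'1) hη'0.le
          linarith
      _ = ε₁ * (F0 / za * G) + ε₁ * (δ / 2) + ε₁ * δ / 2 := by
          rw [hη']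
          field_simp
      _ = ε₁ * gM := by
          rw [hδ]
          ring

end Pool.Agent.H37EP.SEGC
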