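import Pool.Agent.H37EP.Stm

/-!
# SEGV: one block of middle primes with the full level
-/

set_option autoImplicit false

namespace Pool.Agent.H37EP.SEGV

open Finset Pool.Agent.W23.DC Pool.Agent.Y882 Pool.Agent.Y882.KW

lemma mem_pr {Y : ℕ} {u v : ℝ} {p : ℕ} (hp : p ∈ pr Y u v) : p.Prime ∧ u ≤ tt Y p ∧ tt Y p < v := by
  unfold pr at hp
  rw [mem_filter] at hp
  exact hp.2

lemma integ (τ u v a b : ℝ) (hu : 0 < u) (huv : u ≤ v) (hvτ : v < τ) :
    ∫ x in u..v, (a - b * x) / (τ - x) / x =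
      (a / τ) * Real.log (v / u) + (a / τ - b) * Real.log ((τ - u) / (τ - v)) := by
  have hv : 0 < v := by linarith
  have hτ : 0 < τ := by linarith
  have h0 : (0 : ℝ) ∉ Set.uIcc u v := by
    rw [Set.uIcc_of_le huv]
    exact fun h => absurd h.1 (not_le.2 hu)
  have h0' : (0 : ℝ) ∉ Set.uIcc (τ - v) (τ - u) := by
    rw [Set.uIcc_of_le (by linarith)]
    exact fun h => absurd h.1 (not_le.2 (by linarith))
  have h1 : ∫ x in u..v, (a - b * x) / (τ - x) / x = ∫ x in u..v, ((a / τ) * x⁻¹ + (a / τ - b) * (τ - x)⁻¹) := by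
    apply intervalIntegral.integral_congr
    intro x hx
    have hx0 : x ≠ 0 := fun h => h0 (h ▸ hx)
    rw [Set.uIcc_of_le huv] at hx
    have hx1 : τ - x ≠ 0 := by
      have := hx.2
      exact ne_of_gt (by linarith)
    show (a - b * x) / (τ - x) / x = (a / τ) * x⁻¹ + (a / τ - b) * (τ - x)⁻¹
    field_simp
    ring
  have hi : IntervalIntegrable (fun x : ℝ => (a / τ) * x⁻¹) MeasureTheory.volume u v := by
    apply IntervalIntegrable.const_mul
    exact intervalIntegral.intervalIntegrable_inv (fun x hx h => h0 (h ▸ hx)) continuousOn_id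
  have hi2 : IntervalIntegrable (fun x : ℝ => (a / τ - b) * (τ - x)⁻¹) MeasureTheory.volume u v := by
    apply IntervalIntegrable.const_mul
    refine intervalIntegral.intervalIntegrable_inv (fun x hx h => ?_) (by fun_prop)
    rw [Set.uIcc_of_le huv] at hx
    have := hx.2
    linarith
  rw [h1, intervalIntegral.integral_add hi hi2, intervalIntegral.integral_const_mul,
    intervalIntegral.integral_const_mul, integral_inv h0,
    intervalIntegral.integral_comp_sub_left (fun x : ℝ => x⁻¹) τ, integral_inv h0']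

open Classical in
theorem t : Pool.Agent.H37EP.SEGV := by
  intro A0 F f hSF τ ζ u v υ a b gM hζ hζu huv hvτ hvυ hυ hτ hτu ha hb hab hG
  have hA0 := hSF.pos
  have hu : 0 < u := by linarith
  have hv : 0 < v := by linarith
  have hτ0 : 0 < τ := by linarith
  have hζυ : ζ ≤ υ := by linarith
  set G : ℝ := (a / τ) * Real.log (v / u) + (a / τ - b) * Real.log ((τ - u) / (τ - v)) with hGdef
  have hw0 : ∀ x, x ≤ v → 0 ≤ a - b * x := by
    intro x hx
    have : b * x ≤ b * v := mul_le_mul_of_nonneg_left hx hb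
    linarith
  set δ : ℝ := gM - A0 * G with hδ
  have hδ0 : 0 < δ := by linarith
  set Bd : ℝ := Real.log (v / u) + 1 with hBd
  have hlogυ : 0 ≤ Real.log (v / u) := Real.log_nonneg (by rw [le_div_iff₀ hu]; linarith)
  have hBd0 : 0 < Bd := by linarith
  refine ⟨a, min (min ζ (τ - v)) 1, ha, lt_min (lt_min hζ (by linarith)) one_pos, ?_⟩
  intro ε₁ hε₁ hε0
  have hεζ : ε₁ ≤ ζ := hε0.trans ((min_le_left _ _).trans (min_le_left _ _))
  have hετ : ε₁ ≤ τ - v := hε0.trans ((min_le_left _ _).trans (min_le_right _ _))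
  have hε1 : ε₁ ≤ 1 := hε0.trans (min_le_right _ _)
  set η' : ℝ := ε₁ * δ / (2 * (a * Bd + 1)) with hη'
  have hη'0 : 0 < η' := by positivity
  obtain ⟨K, hK⟩ := exists_nat_ge (τ / ε₁)
  have hKτ : τ ≤ (K + 2) * ε₁ := by
    rw [div_le_iff₀ hε₁] at hK
    nlinarith
  obtain ⟨η₁, hη₁, H⟩ := Pool.Agent.W505.DC.MT Pool.Agent.W505.DC.MI A0 F f hSF ε₁
    η' K hε₁ hε1 hη'0
  obtain ⟨η₂, hη₂, H2⟩ := mid τ u v a b hu huv hvτ hτ (δ / (2 * A0)) (by positivity) ε₁ hε₁ (hεζ.trans hζu)
  refine ⟨min (min η₁ η₂) 1, lt_min (lt_min hη₁ hη₂) one_pos, ?_⟩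
  intro Y hY
  have hY2 : (2 : ℝ) ≤ Y := by exact_mod_cast hY
  have hlY : 0 < Real.log Y := Real.log_pos (by linarith)
  set P := pr Y ε₁ ζ with hP
  set R' := pr Y ζ υ with hR'
  set R := pr Y u v with hR
  have hRR' : R ⊆ R' := by
    intro p hp
    rw [hR] at hp
    rw [hR']
    unfold pr at hp ⊢
    rw [mem_filter] at hp ⊢
    exact ⟨hp.1, hp.2.1, hζu.trans hp.2.2.1, hp.2.2.2.trans_le hvυ⟩
  have hPR : P ∪ R' = pr Y ε₁ υ := by
    ext p
    rw [hP, hR']
    unfold pr
    rw [mem_union, mem_filter, mem_filter, mem_filter]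
    constructor
    · rintro (⟨h1, h2, h3, h4⟩ | ⟨h1, h2, h3, h4⟩)
      · exact ⟨h1, h2, h3, h4.trans_le hζυ⟩
      · exact ⟨h1, h2, hεζ.trans h3, h4⟩
    · rintro ⟨h1, h2, h3, h4⟩
      rcases lt_or_ge (tt Y p) ζ with h | h
      · exact Or.inl ⟨h1, h2, h3, h⟩
      · exact Or.inr ⟨h1, h2, h, h4⟩
  have hd : Disjoint P R' := by
    rw [disjoint_left]
    intro p hp hp'
    have h1 := mem_pr hp
    have h2 := mem_pr hp'
    linarith [h1.2.2, h2.2.1]
  have hsiz : Siz P (tt Y) := by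
    refine ⟨fun p hp => (mem_pr hp).1, fun p hp => lt_of_lt_of_le hε₁ (mem_pr hp).2.1, ?_⟩
    intro p hp q hq
    have hp0 : (0 : ℝ) < p := by exact_mod_cast (mem_pr hp).1.pos
    unfold tt
    rw [div_lt_div_iff_of_pos_right hlY, Real.log_lt_log_iff hp0
      (by exact_mod_cast (mem_pr hq).1.pos)]
    exact Nat.cast_lt
  have ht0 : ∀ p, 0 ≤ tt Y p := by
    intro p
    unfold tt
    exact div_nonneg (Real.log_natCast_nonneg p) hlY.le
  set ta : ℕ → ℝ := fun q => τ - tt Y q with hta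
  set za : ℕ → ℝ := fun q => min ζ (ta q) with hza
  have htaR : ∀ q ∈ R, ε₁ ≤ ta q ∧ 0 < ta q ∧ ta q ≤ 3 * za q ∧ ε₁ ≤ za q ∧ za q ≤ ta q ∧
      za q ≤ ζ ∧ ta q ≤ τ := by
    intro q hq
    have h1 := (mem_pr hq).2
    have h3 : ta q = τ - tt Y q := rfl
    have h5 : ε₁ ≤ ta q := by rw [h3]; linarith
    refine ⟨h5, by linarith, ?_, le_min hεζ h5, min_le_right _ _, min_le_left _ _,
      by rw [h3]; linarith [ht0 q]⟩
    rcases le_total ζ (ta q) with h | h
    · have : za q = ζ := min_eq_left h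
      rw [this, h3]
      linarith
    · have : za q = ta q := min_eq_right h
      rw [this]
      linarith
  have hwR : ∀ q ∈ R, 0 ≤ a - b * tt Y q ∧ a - b * tt Y q ≤ a := by
    intro q hq
    have h1 := (mem_pr hq).2
    refine ⟨hw0 _ h1.2.le, ?_⟩
    have : 0 ≤ b * tt Y q := mul_nonneg hb (ht0 q)
    linarith
  set cq : ℕ → Finset ℕ → ℝ := fun q T => if q ∈ T ∧ T.erase q ⊆ P then
    (a - b * tt Y q) * lc P (tt Y) K true (ta q) (za q) (T.erase q) else 0 with hcq
  have hVq : ∀ q ∈ R, ∀ g : ℕ → ℝ, VV (pr Y ε₁ υ) (cq q) g =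
      g q * ((a - b * tt Y q) * VV P (lc P (tt Y) K true (ta q) (za q)) g) := by
    intro q hq g
    rw [← hPR, hcq]
    rw [VV_one P R' hd q (hRR' hq) (fun U => (a - b * tt Y q) * lc P (tt Y) K true (ta q) (za q) U) g]
    congr 1
    unfold VV
    rw [mul_sum]
    apply sum_congr rfl
    intro T _
    ring
  refine ⟨fun T => ∑ q ∈ R, cq q T, ?_, ?_, ?_, ?_⟩
  · intro T
    by_cases hex : ∃ q ∈ R, q ∈ T ∧ T.erase q ⊆ P
    · obtain ⟨q, hq, hqT, hqP⟩ := hex
      show |∑ q ∈ R, cq q T| ≤ a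
      rw [sum_eq_single q]
      · simp only [hcq]
        rw [if_pos ⟨hqT, hqP⟩, abs_mul, abs_of_nonneg (hwR q hq).1]
        calc (a - b * tt Y q) * |lc P (tt Y) K true (ta q) (za q) (T.erase q)| ≤
            a * 1 := by
              apply mul_le_mul (hwR q hq).2 _ (abs_nonneg _) ha
              exact lc_le _ _ hsiz K true _ _ (htaR q hq).2.1.le (fun h => by simp at h) _
          _ = a := mul_one a
      · intro q' hq' hne
        simp only [hcq]
        rw [if_neg]
        rintro ⟨h6, -⟩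
        have h7 : q' ∈ T.erase q := mem_erase.2 ⟨hne, h6⟩
        exact (disjoint_left.1 hd) (hqP h7) (hRR' hq')
      · intro h; exact absurd hq h
    · push Not at hex
      show |∑ q ∈ R, cq q T| ≤ a
      rw [sum_eq_zero]
      · rw [abs_zero]; exact ha
      · intro q hq
        simp only [hcq]
        rw [if_neg]
        rintro ⟨h6, h7⟩
        exact hex q hq h6 h7
  · intro T hT hne
    -- size of the products of subsets of `P`
    have hsize : ∀ (U : Finset ℕ) (τ₁ ζ₁ : ℝ), U ⊆ P → 0 ≤ τ₁ → lc P (tt Y) K true τ₁ ζ₁ U ≠ 0 →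
        ∑ p ∈ U, tt Y p ≤ τ₁ := by
      intro U τ₁ ζ₁ hU hτ₁ hne'
      have hE := lc_EE _ _ hsiz K true τ₁ ζ₁ hτ₁ (fun h => by simp at h) U hne'
      have h5 := EE_sz _ _ hsiz ht0 τ₁ ζ₁ hτ₁ _ hE
      unfold sz at h5
      rwa [Nat.primeFactors_prod (fun p hp => (mem_pr (hU hp)).1)] at h5
    have hTp : ∀ p ∈ T, p.Prime := fun p hp => (mem_pr (hT hp)).1
    have hfin : ∑ p ∈ T, tt Y p ≤ τ := by
      obtain ⟨q, hq, hq2⟩ := exists_ne_zero_of_sum_ne_zero hne
      simp only [hcq] at hq2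
      split_ifs at hq2 with h6
      · have h7 := right_ne_zero_of_mul hq2
        have h8 := hsize (T.erase q) (ta q) (za q) h6.2 (htaR q hq).2.1.le h7
        rw [← add_sum_erase _ _ h6.1]
        have h9 : ta q = τ - tt Y q := rfl
        rw [h9] at h8
        linarith
      · exact absurd rfl hq2
    unfold tt at hfin
    rw [← sum_div, div_le_iff₀ hlY] at hfin
    have hp0 : ∀ p ∈ T, (p : ℝ) ≠ 0 := by
      intro p hp
      have := (hTp p hp).ne_zero
      exact_mod_cast this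
    have h6 : Real.log ((∏ p ∈ T, p : ℕ) : ℝ) = ∑ p ∈ T, Real.log p := by
      push_cast
      rw [Real.log_prod hp0]
    rw [← h6] at hfin
    have hpos : (0 : ℝ) < ((∏ p ∈ T, p : ℕ) : ℝ) := by
      have : 0 < ∏ p ∈ T, p := prod_pos fun p hp => (hTp p hp).pos
      exact_mod_cast this
    rw [← Real.log_le_log_iff hpos (by positivity), Real.log_rpow (by linarith)]
    exact hfin
  · intro N
    set ind : ℕ → ℝ := fun p => if p ∣ N then 1 else 0 with hind
    rw [VV_sum, mul_sum]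
    apply sum_le_sum
    intro q hq
    rw [hVq q hq]
    have h3 := lc_ind_up P (tt Y) hsiz K (ta q) (za q) (htaR q hq).2.1.le N
    have h5 : (0 : ℝ) ≤ if q ∣ N then 1 else 0 := by split_ifs <;> norm_num
    calc (if ∀ p ∈ P, ¬ p ∣ N then (1 : ℝ) else 0) * ((a - b * tt Y q) * (if q ∣ N then 1 else 0)) =
        (if q ∣ N then 1 else 0) * ((a - b * tt Y q) * (if ∀ p ∈ P, ¬ p ∣ N then (1 : ℝ) else 0)) := by
          ring
      _ ≤ ind q * ((a - b * tt Y q) * VV P (lc P (tt Y) K true (ta q) (za q)) ind) := by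
          apply mul_le_mul_of_nonneg_left _ h5
          exact mul_le_mul_of_nonneg_left h3 (hwR q hq).1
  · intro g hg hM
    have hgP : ∀ p ∈ P, 0 ≤ g p := fun p hp => hg p (by rw [← hPR]; exact mem_union_left _ hp)
    have hgR : ∀ p ∈ R, 0 ≤ g p := fun p hp => hg p (by rw [← hPR]; exact mem_union_right _ (hRR' hp))
    have hM1 : Mer P (tt Y) g ε₁ ζ η₁ := by
      intro x y hx hxy hy
      have h1 := hM x y hx hxy (hy.trans hζυ)
      have h3 : P.filter (fun p => x ≤ tt Y p ∧ tt Y p < y) =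
          (pr Y ε₁ υ).filter (fun p => x ≤ tt Y p ∧ tt Y p < y) := by
        ext p
        rw [mem_filter, mem_filter, ← hPR, mem_union]
        constructor
        · rintro ⟨h5, h6⟩
          exact ⟨Or.inl h5, h6⟩
        · rintro ⟨h5 | h5, h6⟩
          · exact ⟨h5, h6⟩
          · have := (mem_pr h5).2.1
            exfalso
            linarith [h6.2]
      rw [h3]
      exact h1.trans ((min_le_left _ _).trans (min_le_left _ _))
    have hM2 : Mer (pr Y ε₁ υ) (tt Y) g ε₁ v η₂ := fun x y hx hxy hy =>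
      (hM x y hx hxy (hy.trans hvυ)).trans ((min_le_left _ _).trans (min_le_right _ _))
    have hPε : ∀ p ∈ P, ε₁ ≤ tt Y p := fun p hp => (mem_pr hp).2.1
    have hRf : (pr Y ε₁ υ).filter (fun p => u ≤ tt Y p ∧ tt Y p < v) = R := by
      ext p
      rw [hR]
      unfold pr
      rw [mem_filter, mem_filter, mem_filter]
      constructor
      · rintro ⟨⟨h1, h2, h3⟩, h4⟩
        exact ⟨h1, h2, h4⟩
      · rintro ⟨h1, h2, h4⟩
        exact ⟨⟨h1, h2, (hεζ.trans hζu).trans h4.1, h4.2.trans_le hvυ⟩, h4⟩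
    have h9 : ∑ q ∈ R, VV (pr Y ε₁ υ) (cq q) g ≤
        ε₁ * A0 * (∑ q ∈ R, g q * ((a - b * tt Y q) / (τ - tt Y q))) + η' * (a * ∑ q ∈ R, g q) := by
      rw [mul_sum, mul_sum, mul_sum, ← sum_add_distrib]
      apply sum_le_sum
      intro q hq
      rw [hVq q hq, lc_V _ _ hsiz K true (ta q) (za q) (htaR q hq).2.1.le
        (fun h => by simp at h)]
      obtain ⟨t1, t2, t3, t4, t5, t6, t7⟩ := htaR q hq
      have h10 := (H P (tt Y) g ζ (by linarith) hgP hPε hM1 K le_rfl
        (ta q) (za q) (by linarith) t4 t6 t5 (by linarith)).1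
      have hz0 : 0 < za q := by linarith
      rw [hSF.F3 (ta q / za q) (by rw [le_div_iff₀ hz0]; linarith)
        (by rw [div_le_iff₀ hz0]; exact t3)] at h10
      have e2 : ε₁ / za q * (A0 / (ta q / za q)) = ε₁ * A0 / ta q := by
        field_simp
      rw [e2] at h10
      have hw := hwR q hq
      have hgq := hgR q hq
      calc g q * ((a - b * tt Y q) * MM P (tt Y) g K true (ta q) (za q)) ≤
          g q * ((a - b * tt Y q) * (ε₁ * A0 / ta q + η')) := by
            apply mul_le_mul_of_nonneg_left _ hgq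
            exact mul_le_mul_of_nonneg_left h10 hw.1
        _ = ε₁ * A0 * (g q * ((a - b * tt Y q) / ta q)) + (a - b * tt Y q) * (g q * η') := by ring
        _ ≤ ε₁ * A0 * (g q * ((a - b * tt Y q) / (τ - tt Y q))) + η' * (a * g q) := by
            have : (a - b * tt Y q) * (g q * η') ≤ a * (g q * η') :=
              mul_le_mul_of_nonneg_right hw.2 (by positivity)
            have e3 : ta q = τ - tt Y q := rfl
            rw [e3]
            linarith
    have h11 := H2 (pr Y ε₁ υ) (tt Y) g hg hM2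
    rw [hRf, integ τ u v a b hu huv hvτ, ← hGdef] at h11
    have h12 : ∑ q ∈ R, g q ≤ Bd := by
      have h13 := hM u v (hεζ.trans hζu) huv hvυ
      rw [hRf, abs_le] at h13
      have h14 : min (min η₁ η₂) 1 ≤ 1 := min_le_right _ _
      linarith [h13.2]
    have h15 : ε₁ * A0 * (∑ q ∈ R, g q * ((a - b * tt Y q) / (τ - tt Y q))) ≤
        ε₁ * A0 * (G + δ / (2 * A0)) :=
      mul_le_mul_of_nonneg_left h11 (by positivity)
    have h16 : η' * (a * ∑ q ∈ R, g q) ≤ η' * (a * Bd + 1) := by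
      apply mul_le_mul_of_nonneg_left _ hη'0.le
      have := mul_le_mul_of_nonneg_left h12 ha
      linarith
    have h17 : ε₁ * A0 * (G + δ / (2 * A0)) = ε₁ * A0 * G + ε₁ * δ / 2 := by
      field_simp
    have h18 : η' * (a * Bd + 1) = ε₁ * δ / 2 := by
      rw [hη']
      field_simp
    have h19 : ε₁ * gM = ε₁ * A0 * G + ε₁ * δ / 2 + ε₁ * δ / 2 := by
      rw [hδ]
      ring
    rw [VV_sum]
    linarith

end Pool.Agent.H37EP.SEGV
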