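import Pool.Agent.H37EP.Stm
import Pool.Agent.H37EP.LOW
import Pool.Agent.H37EP.SEGC
import Pool.Agent.H37EP.SEGV
import Pool.Agent.H37EP.F4
import Pool.Agent.Y882.KW.Num

/-!
# The weights for four and for three prime factors
-/

set_option autoImplicit false

namespace Pool.Agent.H37EP

open Finset Pool.Agent.W23.DC Pool.Agent.Y882 Pool.Agent.Y882.KW

lemma log_le (x q : ℝ) (n : ℕ) (hx : 0 < x) (hq : 0 ≤ q) (h : x ≤ ∑ i ∈ Finset.range n, q ^ i / (i.factorial : ℝ)) :
    Real.log x ≤ q := by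
  rw [Real.log_le_iff_le_exp hx]
  exact h.trans (Real.sum_le_exp_of_nonneg hq n)

open Classical in
/-- gluing of two blocks -/
theorem glue (τ ζ u v w υ a b g1 g2 : ℝ) (huv : u ≤ v) (hvw : v ≤ w) (h1 : HMid τ ζ u v υ a b g1)
    (h2 : HMid τ ζ v w υ a b g2) : HMid τ ζ u w υ a b (g1 + g2) := by
  obtain ⟨A1, e1, hA1, he1, H1⟩ := h1
  obtain ⟨A2, e2, hA2, he2, H2⟩ := h2
  refine ⟨A1 + A2, min e1 e2, by positivity, lt_min he1 he2, ?_⟩
  intro ε₁ hε hεe
  obtain ⟨η1, hη1, K1⟩ := H1 ε₁ hε (hεe.trans (min_le_left _ _))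
  obtain ⟨η2, hη2, K2⟩ := H2 ε₁ hε (hεe.trans (min_le_right _ _))
  refine ⟨min η1 η2, lt_min hη1 hη2, ?_⟩
  intro Y hY
  obtain ⟨c1, a1, b1, d1, f1⟩ := K1 Y hY
  obtain ⟨c2, a2, b2, d2, f2⟩ := K2 Y hY
  have hadd : ∀ (P : Finset ℕ) (g : ℕ → ℝ), VV P (fun T => c1 T + c2 T) g = VV P c1 g + VV P c2 g := by
    intro P g
    unfold VV
    rw [← sum_add_distrib]
    exact sum_congr rfl fun T _ => by ring
  refine ⟨fun T => c1 T + c2 T, ?_, ?_, ?_, ?_⟩
  · intro T
    exact (abs_add_le _ _).trans (add_le_add (a1 T) (a2 T))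
  · intro T hT hne
    by_cases h : c1 T = 0
    · apply b2 T hT
      intro h'
      apply hne
      show c1 T + c2 T = 0
      rw [h, h', add_zero]
    · exact b1 T hT h
  · intro N
    have hset : pr Y u w = pr Y u v ∪ pr Y v w := by
      ext p
      unfold pr
      rw [mem_union, mem_filter, mem_filter, mem_filter]
      constructor
      · rintro ⟨g1, g2, g3, g4⟩
        rcases lt_or_ge (tt Y p) v with h | h
        · exact Or.inl ⟨g1, g2, g3, h⟩
        · exact Or.inr ⟨g1, g2, h, g4⟩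
      · rintro (⟨g1, g2, g3, g4⟩ | ⟨g1, g2, g3, g4⟩)
        · exact ⟨g1, g2, g3, g4.trans_le hvw⟩
        · exact ⟨g1, g2, huv.trans g3, g4⟩
    have hdis : Disjoint (pr Y u v) (pr Y v w) := by
      rw [disjoint_left]
      intro p hp hp'
      unfold pr at hp hp'
      rw [mem_filter] at hp hp'
      linarith [hp.2.2.2, hp'.2.2.1]
    rw [hadd, hset, sum_union hdis, mul_add]
    exact add_le_add (d1 N) (d2 N)
  · intro g hg hM
    rw [hadd, mul_add]
    exact add_le_add (f1 g hg fun x y hx hxy hy => (hM x y hx hxy hy).trans (min_le_left _ _))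
      (f2 g hg fun x y hx hxy hy => (hM x y hx hxy hy).trans (min_le_right _ _))

lemma midC4 (A0 : ℝ) (F f : ℝ → ℝ) (hSF : SF A0 F f) (τ ζ u v υ a b ta za Kq q : ℝ) (hza : 0 < za) (h1 : za ≤ ζ)
    (h2 : ζ ≤ u) (h3 : u ≤ v) (h4 : v ≤ υ) (h5 : υ ≤ 1) (h6 : ta + v ≤ τ) (h7 : τ ≤ 1) (ha : 0 ≤ a) (hb : 0 ≤ b)
    (hbv : b * v ≤ a) (hs : ta = 4 * za) (hK : a * Real.log (v / u) - b * (v - u) ≤ Kq) (hKq : 0 ≤ Kq)
    (hq : 1.148 / 4 / za * Kq < q) : HMid τ ζ u v υ a b (A0 * q) := by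
  have hA := hSF.pos
  apply SEGC.t A0 F f hSF τ ζ u v υ a b ta za (A0 * q) hza h1 (by linarith) h2 h3 h4 h5 h6 h7 ha hb hbv
  have e : ta / za = 4 := by rw [hs]; field_simp
  rw [e]
  have h8 := F4.t A0 F f hSF
  have h9 : 1 ≤ F 4 := hSF.F1 4 (by norm_num)
  calc F 4 / za * (a * Real.log (v / u) - b * (v - u)) ≤ F 4 / za * Kq :=
        mul_le_mul_of_nonneg_left hK (by positivity)
    _ ≤ (A0 * 1.148 / 4) / za * Kq := by gcongr
    _ = A0 * (1.148 / 4 / za * Kq) := by ring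
    _ < A0 * q := mul_lt_mul_of_pos_left hq hA

lemma midC3 (A0 : ℝ) (F f : ℝ → ℝ) (hSF : SF A0 F f) (τ ζ u v υ a b ta za Kq q : ℝ) (hza : 0 < za) (h1 : za ≤ ζ)
    (h2 : ζ ≤ u) (h3 : u ≤ v) (h4 : v ≤ υ) (h5 : υ ≤ 1) (h6 : ta + v ≤ τ) (h7 : τ ≤ 1) (ha : 0 ≤ a) (hb : 0 ≤ b)
    (hbv : b * v ≤ a) (hs : ta = 3 * za) (hK : a * Real.log (v / u) - b * (v - u) ≤ Kq)
    (hq : 1 / 3 / za * Kq < q) : HMid τ ζ u v υ a b (A0 * q) := by
  have hA := hSF.pos
  apply SEGC.t A0 F f hSF τ ζ u v υ a b ta za (A0 * q) hza h1 (by linarith) h2 h3 h4 h5 h6 h7 ha hb hbv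
  have e : ta / za = 3 := by rw [hs]; field_simp
  rw [e, hSF.F3 3 (by norm_num) le_rfl]
  calc A0 / 3 / za * (a * Real.log (v / u) - b * (v - u)) ≤ A0 / 3 / za * Kq :=
        mul_le_mul_of_nonneg_left hK (by positivity)
    _ = A0 * (1 / 3 / za * Kq) := by ring
    _ < A0 * q := mul_lt_mul_of_pos_left hq hA

lemma midV (A0 : ℝ) (F f : ℝ → ℝ) (hSF : SF A0 F f) (τ ζ u v υ a b q : ℝ) (hζ : 0 < ζ) (h1 : ζ ≤ u) (h2 : u ≤ v)
    (h3 : v < τ) (h4 : v ≤ υ) (h5 : υ ≤ 1) (h6 : τ ≤ 1) (h7 : τ - u ≤ 3 * ζ) (ha : 0 ≤ a) (hb : 0 ≤ b)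
    (hbv : b * v ≤ a)
    (hq : (a / τ) * Real.log (v / u) + (a / τ - b) * Real.log ((τ - u) / (τ - v)) < q) :
    HMid τ ζ u v υ a b (A0 * q) :=
  SEGV.t A0 F f hSF τ ζ u v υ a b (A0 * q) hζ h1 h2 h3 h4 h5 h6 h7 ha hb hbv
    (mul_lt_mul_of_pos_left hq hSF.pos)

/-- the weights for four prime factors -/
theorem wts4 (A0 : ℝ) (F f : ℝ → ℝ) (hSF : SF A0 F f) :
    HLow 0.2495 0.045 0.32 (A0 * 6.103) ∧ HMid 0.2495 0.045 0.045 0.226 0.32 0.534 (0.534 / 0.32) (A0 * 4.923) ∧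
      HMid 0.499 0.045 0.226 0.32 0.32 0.534 (0.534 / 0.32) (A0 * 0.185) := by
  have hA := hSF.pos
  obtain ⟨hl3, -⟩ := log3
  refine ⟨?_, ?_, ?_⟩
  · apply LOW.t A0 F f hSF 0.18 0.2495 0.045 0.32 (A0 * 6.103) <;> try norm_num
    have e : (0.18 : ℝ) / 0.045 - 1 = 3 := by norm_num
    have h1 : A0 * 6.103 < A0 * Real.log 3 / 0.18 := by
      rw [lt_div_iff₀ (by norm_num)]
      have h2 : 6.103 * 0.18 < Real.log 3 := by norm_num at hl3 ⊢; linarith
      calc A0 * 6.103 * 0.18 = A0 * (6.103 * 0.18) := by ring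
        _ < A0 * Real.log 3 := mul_lt_mul_of_pos_left h2 hA
    norm_num at h1 ⊢
    exact h1
  · have s1 : HMid 0.2495 0.045 0.045 0.069 0.32 0.534 (0.534 / 0.32) (A0 * 1.2006) := by
      apply midC4 A0 F f hSF 0.2495 0.045 0.045 0.069 0.32 0.534 (0.534 / 0.32) 0.18 0.045 0.18821 1.2006 <;> try norm_num
      have := log_le (23 / 15) 0.42745 10 (by norm_num) (by norm_num) (by norm_num [Finset.sum_range_succ, Nat.factorial])
      norm_num at this
      linarith
    have s2 : HMid 0.2495 0.045 0.069 0.1145 0.32 0.534 (0.534 / 0.32) (A0 * 1.4412) := by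
      apply midC3 A0 F f hSF 0.2495 0.045 0.069 0.1145 0.32 0.534 (0.534 / 0.32) 0.135 0.045 0.19455 1.4412 <;> try norm_num
      have := log_le (229 / 138) 0.5065 10 (by norm_num) (by norm_num) (by norm_num [Finset.sum_range_succ, Nat.factorial])
      norm_num at this
      linarith
    have s3 : HMid 0.2495 0.045 0.1145 0.226 0.32 0.534 (0.534 / 0.32) (A0 * 2.2812) := by
      apply midV A0 F f hSF 0.2495 0.045 0.1145 0.226 0.32 0.534 (0.534 / 0.32) 2.2812 <;> try norm_num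
      have h1 := log_le (452 / 229) 0.68 12 (by norm_num) (by norm_num) (by norm_num [Finset.sum_range_succ, Nat.factorial])
      have h2 := log_le (270 / 47) 1.7483 16 (by norm_num) (by norm_num) (by norm_num [Finset.sum_range_succ, Nat.factorial])
      norm_num at h1 h2
      linarith
    have h := glue _ _ _ _ _ _ _ _ _ _ (by norm_num) (by norm_num) (glue _ _ _ _ _ _ _ _ _ _ (by norm_num) (by norm_num) s1 s2) s3
    have e : A0 * 1.2006 + A0 * 1.4412 + A0 * 2.2812 = A0 * 4.923 := by ring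
    rw [e] at h
    exact h
  · have s1 : HMid 0.499 0.045 0.226 0.319 0.32 0.534 (0.534 / 0.32) (A0 * 0.1845) := by
      apply midC4 A0 F f hSF 0.499 0.045 0.226 0.319 0.32 0.534 (0.534 / 0.32) 0.18 0.045 0.0289 0.1845 <;> try norm_num
      have := log_le (319 / 226) 0.3447 10 (by norm_num) (by norm_num) (by norm_num [Finset.sum_range_succ, Nat.factorial])
      norm_num at this
      linarith
    have s2 : HMid 0.499 0.045 0.319 0.32 0.32 0.534 (0.534 / 0.32) (A0 * 0.0005) := by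
      apply midC4 A0 F f hSF 0.499 0.045 0.319 0.32 0.32 0.534 (0.534 / 0.32) 0.176 0.044 0.00005 0.0005 <;> try norm_num
      have := log_le (320 / 319) 0.0032 4 (by norm_num) (by norm_num) (by norm_num [Finset.sum_range_succ, Nat.factorial])
      norm_num at this
      linarith
    have h := glue _ _ _ _ _ _ _ _ _ _ (by norm_num) (by norm_num) s1 s2
    have e : A0 * 0.1845 + A0 * 0.0005 = A0 * 0.185 := by ring
    rw [e] at h
    exact h

/-- the weights for three prime factors -/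
theorem wts3 (A0 : ℝ) (F f : ℝ → ℝ) (hSF : SF A0 F f) :
    HLow 0.2495 0.062 0.464 (A0 * 4.429) ∧ HMid 0.2495 0.062 0.062 0.112 0.464 0.5425 (0.5425 / 0.464) (A0 * 1.599) ∧
      HMid 0.499 0.062 0.112 0.464 0.464 0.5425 (0.5425 / 0.464) (A0 * 1.829) := by
  have hA := hSF.pos
  obtain ⟨hl3, -⟩ := log3
  refine ⟨?_, ?_, ?_⟩
  · apply LOW.t A0 F f hSF 0.248 0.2495 0.062 0.464 (A0 * 4.429) <;> try norm_num
    have h1 : A0 * 4.429 < A0 * Real.log 3 / 0.248 := by
      rw [lt_div_iff₀ (by norm_num)]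
      have h2 : 4.429 * 0.248 < Real.log 3 := by norm_num at hl3 ⊢; linarith
      calc A0 * 4.429 * 0.248 = A0 * (4.429 * 0.248) := by ring
        _ < A0 * Real.log 3 := mul_lt_mul_of_pos_left h2 hA
    norm_num at h1 ⊢
    exact h1
  · have s1 : HMid 0.2495 0.062 0.062 0.0635 0.464 0.5425 (0.5425 / 0.464) (A0 * 0.061) := by
      apply midC3 A0 F f hSF 0.2495 0.062 0.062 0.0635 0.464 0.5425 (0.5425 / 0.464) 0.186 0.062 0.01125 0.061 <;> try norm_num
      have := log_le (127 / 124) 0.02391 5 (by norm_num) (by norm_num) (by norm_num [Finset.sum_range_succ, Nat.factorial])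
      norm_num at this
      linarith
    have s2 : HMid 0.2495 0.062 0.0635 0.112 0.464 0.5425 (0.5425 / 0.464) (A0 * 1.538) := by
      apply midV A0 F f hSF 0.2495 0.062 0.0635 0.112 0.464 0.5425 (0.5425 / 0.464) 1.538 <;> try norm_num
      have h1 := log_le (224 / 127) 0.5675 12 (by norm_num) (by norm_num) (by norm_num [Finset.sum_range_succ, Nat.factorial])
      have h2 := log_le (372 / 275) 0.3022 12 (by norm_num) (by norm_num) (by norm_num [Finset.sum_range_succ, Nat.factorial])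
      norm_num at h1 h2
      linarith
    have h := glue _ _ _ _ _ _ _ _ _ _ (by norm_num) (by norm_num) s1 s2
    have e : A0 * 0.061 + A0 * 1.538 = A0 * 1.599 := by ring
    rw [e] at h
    exact h
  · have s1 : HMid 0.499 0.062 0.112 0.251 0.464 0.5425 (0.5425 / 0.464) (A0 * 1.2745) := by
      apply midC4 A0 F f hSF 0.499 0.062 0.112 0.251 0.464 0.5425 (0.5425 / 0.464) 0.248 0.062 0.2753 1.2745 <;> try norm_num
      have := log_le (251 / 112) 0.807 12 (by norm_num) (by norm_num) (by norm_num [Finset.sum_range_succ, Nat.factorial])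
      norm_num at this
      linarith
    have s2 : HMid 0.499 0.062 0.251 0.27 0.464 0.5425 (0.5425 / 0.464) (A0 * 0.0873) := by
      apply midC4 A0 F f hSF 0.499 0.062 0.251 0.27 0.464 0.5425 (0.5425 / 0.464) 0.229 0.05725 0.0174 0.0873 <;> try norm_num
      have := log_le (270 / 251) 0.07298 6 (by norm_num) (by norm_num) (by norm_num [Finset.sum_range_succ, Nat.factorial])
      norm_num at this
      linarith
    have s3 : HMid 0.499 0.062 0.27 0.313 0.464 0.5425 (0.5425 / 0.464) (A0 * 0.1611) := by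
      apply midC3 A0 F f hSF 0.499 0.062 0.27 0.313 0.464 0.5425 (0.5425 / 0.464) 0.186 0.062 0.02995 0.1611 <;> try norm_num
      have := log_le (313 / 270) 0.1478 8 (by norm_num) (by norm_num) (by norm_num [Finset.sum_range_succ, Nat.factorial])
      norm_num at this
      linarith
    have s4 : HMid 0.499 0.062 0.313 0.464 0.464 0.5425 (0.5425 / 0.464) (A0 * 0.3061) := by
      apply midV A0 F f hSF 0.499 0.062 0.313 0.464 0.464 0.5425 (0.5425 / 0.464) 0.3061 <;> try norm_num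
      have h1 := log_le (464 / 313) 0.3937 12 (by norm_num) (by norm_num) (by norm_num [Finset.sum_range_succ, Nat.factorial])
      have h2 : 1.533 ≤ Real.log (186 / 35) := by
        have e : (186 / 35 : ℝ) = 3 * (62 / 35) := by norm_num
        rw [e, Real.log_mul (by norm_num) (by norm_num)]
        have h3 := Real.one_sub_inv_le_log_of_pos (show (0 : ℝ) < 62 / 35 by norm_num)
        norm_num at h3 hl3 ⊢
        linarith
      norm_num at h1 h2
      linarith
    have h := glue _ _ _ _ _ _ _ _ _ _ (by norm_num) (by norm_num) (glue _ _ _ _ _ _ _ _ _ _ (by norm_num) (by norm_num)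
      (glue _ _ _ _ _ _ _ _ _ _ (by norm_num) (by norm_num) s1 s2) s3) s4
    have e : A0 * 1.2745 + A0 * 0.0873 + A0 * 0.1611 + A0 * 0.3061 = A0 * 1.829 := by ring
    rw [e] at h
    exact h

end Pool.Agent.H37EP
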