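import Pool.Agent.H37EP.Stm

/-!
# The first moment of the weights, upper bound
-/

set_option autoImplicit false

namespace Pool.Agent.H37EP.M1U

open Finset Pool.Agent.Y862.SQ Pool.Agent.Y486.SQ Pool.Agent.Y882 Pool.Agent.H37SQ

open Classical in
/-- one `j` -/
theorem E1U : ∃ C x0 : ℕ, 1 ≤ C ∧ ∀ b : ℕ, C ≤ b → ∀ x y : ℕ, x0 ≤ y → 1 ≤ y → y ^ (C * b) ≤ x →
    ∀ (Z M j : ℕ) (P : Finset ℕ) (c : Finset ℕ → ℝ) (a1 : ℝ) (m L : ℕ) (Pb G : ℝ),
      (∀ p ∈ P, p.Prime ∧ y < p) → (∀ D, |c D| ≤ a1) → (∀ D ⊆ P, c D ≠ 0 → D.card ≤ m ∧ ∏ p ∈ D, p ≤ L) →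
      Pi' P j ≤ Pb → vj P c j ≤ G → 0 ≤ G →
      ∑ n ∈ Sf Z M y {j}, wj P c Z j n ≤ (G + a1 * (1 / 2 : ℝ) ^ b * Pb) * (1 + 2 * (1 / 2 : ℝ) ^ b) *
        ((Sf Z M y {j}).card + √(x : ℝ)) + a1 * (2 ^ m * √(x : ℝ)) * L := by
  obtain ⟨C, x0, hC, H⟩ := count_DD
  refine ⟨C, x0, hC, ?_⟩
  intro b hb x y hy hy1 hyx Z M j P c a1 m L Pb G hP hc hcL hPb hG hG0
  have ha1 : 0 ≤ a1 := (abs_nonneg _).trans (hc ∅)
  have hjj : ({j, j} : Finset ℕ) = {j} := by simp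
  have hM0 : (0 : ℝ) ≤ M := Nat.cast_nonneg _
  set V : ℝ := VH {j} y with hV
  have hV0 : 0 ≤ V := VH_nonneg _ _
  have hMV : 0 ≤ M * V := by positivity
  set δ : ℝ := (1 / 2 : ℝ) ^ b with hδ
  have hδ0 : 0 ≤ δ := by positivity
  have hδ1 : δ ≤ 1 / 2 := by
    have hb1 : 1 ≤ b := hC.trans hb
    calc δ ≤ (1 / 2 : ℝ) ^ 1 := pow_le_pow_of_le_one (by norm_num) (by norm_num) hb1
      _ = 1 / 2 := pow_one _
  have hs0 : 0 ≤ √(x : ℝ) := Real.sqrt_nonneg _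
  have hPb0 : 0 ≤ Pb := by
    have h1 : 0 ≤ Pi' P j := by
      rw [← sum_hh]
      exact sum_nonneg fun D _ => hh_nonneg j D
    exact h1.trans hPb
  have key : ∀ D : Finset ℕ, (∀ p ∈ D, p.Prime ∧ y < p) →
      |∑ n ∈ Sf Z M y {j}, ind Z j D n - M * V * hh j D| ≤ δ * (M * V * hh j D) + 2 ^ D.card * √(x : ℝ) := by
    intro D hD
    have h1 := H b hb x y hy hyx Z M j j D ∅ hD (by simp) (disjoint_empty_right _)
    rw [hjj] at h1
    simp only [ind_empty, hh_empty, mul_one, card_empty, add_zero] at h1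
    have e : (M : ℝ) * hh j D * VH {j} y = M * V * hh j D := by rw [hV]; ring
    rw [e] at h1
    exact h1
  have hcard : M * V ≤ (1 + 2 * δ) * ((Sf Z M y {j}).card + √(x : ℝ)) := by
    have h1 := (abs_le.1 (key ∅ (by simp))).1
    simp only [ind_empty, hh_empty, mul_one, card_empty, pow_zero, one_mul, sum_const, nsmul_eq_mul] at h1
    have h2 : (1 - δ) * (M * V) ≤ (Sf Z M y {j}).card + √(x : ℝ) := by linarith
    have h3 : (1 + 2 * δ) * ((1 - δ) * (M * V)) ≤ (1 + 2 * δ) * ((Sf Z M y {j}).card + √(x : ℝ)) :=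
      mul_le_mul_of_nonneg_left h2 (by linarith)
    refine le_trans ?_ h3
    have h4 : 1 ≤ (1 + 2 * δ) * (1 - δ) := by nlinarith
    have h5 := mul_le_mul_of_nonneg_right h4 hMV
    rw [one_mul, mul_assoc] at h5
    exact h5
  have e0 : ∑ n ∈ Sf Z M y {j}, wj P c Z j n = ∑ D ∈ P.powerset, c D * ∑ n ∈ Sf Z M y {j}, ind Z j D n := by
    simp only [wj_eq]
    rw [sum_comm]
    apply sum_congr rfl
    intro D _
    rw [mul_sum]
  have hterm : ∀ D ∈ P.powerset, c D * ∑ n ∈ Sf Z M y {j}, ind Z j D n ≤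
      M * V * (c D * hh j D) + (a1 * (δ * (M * V * hh j D)) +
      a1 * (2 ^ m * √(x : ℝ)) * (if ∏ p ∈ D, p ≤ L then 1 else 0)) := by
    intro D hD
    rw [mem_powerset] at hD
    have h0 := hh_nonneg j D
    have hi2 : (0 : ℝ) ≤ (if ∏ p ∈ D, p ≤ L then 1 else 0) := by split_ifs <;> norm_num
    by_cases hcD : c D = 0
    · rw [hcD, zero_mul, zero_mul, mul_zero, zero_add]
      positivity
    · obtain ⟨m1, m2⟩ := hcL D hD hcD
      rw [if_pos m2, mul_one]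
      have k1 := key D (fun p hp => hP p (hD hp))
      have k2 : |c D * (∑ n ∈ Sf Z M y {j}, ind Z j D n - M * V * hh j D)| ≤
          a1 * (δ * (M * V * hh j D) + 2 ^ m * √(x : ℝ)) := by
        rw [abs_mul]
        apply mul_le_mul (hc D) _ (abs_nonneg _) ha1
        refine k1.trans (add_le_add le_rfl ?_)
        apply mul_le_mul_of_nonneg_right _ hs0
        exact pow_le_pow_right₀ (by norm_num) m1
      have k3 := (abs_le.1 k2).2
      linarith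
  have hsum := sum_le_sum hterm
  rw [← e0] at hsum
  refine hsum.trans ?_
  have s3 : ∑ D ∈ P.powerset, (if ∏ p ∈ D, p ≤ L then (1 : ℝ) else 0) ≤ L := by
    rw [← sum_filter, sum_const, nsmul_eq_mul, mul_one]
    exact card_small P (fun p hp => (hP p hp).1) L
  have e1 : ∑ D ∈ P.powerset, (M * V * (c D * hh j D) + (a1 * (δ * (M * V * hh j D)) +
      a1 * (2 ^ m * √(x : ℝ)) * (if ∏ p ∈ D, p ≤ L then 1 else 0))) =
      M * V * vj P c j + (a1 * δ * Pi' P j * (M * V) + a1 * (2 ^ m * √(x : ℝ)) *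
        ∑ D ∈ P.powerset, (if ∏ p ∈ D, p ≤ L then (1 : ℝ) else 0)) := by
    rw [sum_add_distrib, sum_add_distrib, ← mul_sum, ← mul_sum, ← mul_sum, ← mul_sum, ← mul_sum, sum_hh]
    have h2 : vj P c j = ∑ D ∈ P.powerset, c D * hh j D := rfl
    rw [h2]
    ring
  rw [e1]
  have h1 : a1 * δ * Pi' P j ≤ a1 * δ * Pb := mul_le_mul_of_nonneg_left hPb (by positivity)
  have h2 : (vj P c j + a1 * δ * Pi' P j) * (M * V) ≤ (G + a1 * δ * Pb) * (M * V) :=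
    mul_le_mul_of_nonneg_right (by linarith) hMV
  have h3 : (G + a1 * δ * Pb) * (M * V) ≤
      (G + a1 * δ * Pb) * ((1 + 2 * δ) * ((Sf Z M y {j}).card + √(x : ℝ))) :=
    mul_le_mul_of_nonneg_left hcard (by positivity)
  have h4 : a1 * (2 ^ m * √(x : ℝ)) * ∑ D ∈ P.powerset, (if ∏ p ∈ D, p ≤ L then (1 : ℝ) else 0) ≤
      a1 * (2 ^ m * √(x : ℝ)) * L := mul_le_mul_of_nonneg_left s3 (by positivity)
  have e3 : (G + a1 * δ * Pb) * (1 + 2 * δ) * ((Sf Z M y {j}).card + √(x : ℝ)) =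
      (G + a1 * δ * Pb) * ((1 + 2 * δ) * ((Sf Z M y {j}).card + √(x : ℝ))) := by ring
  rw [e3]
  linarith

theorem t : M1U := by
  classical
  obtain ⟨C, x0, hC, H⟩ := E1U
  refine ⟨C, x0, hC, ?_⟩
  intro b hb x y hy hy1 hyx Z M T P c a1 m L Pb G hP hc hcL hPb hG hG0
  have hjj : ∀ j : ℕ, ({j, j} : Finset ℕ) = {j} := by simp
  have hSf : ∀ (j : ℕ) (f : ℕ → ℝ), ∑ n ∈ Sf Z M y {j}, f n = ∑ n ∈ Icc 1 M, ok Z y j n * f n := by
    intro j f
    have h := Sf_sum Z M y j j f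
    rw [hjj] at h
    rw [h]
    apply sum_congr rfl
    intro n _
    rw [ok_sq]
  have hcd : ∀ j : ℕ, ((Sf Z M y {j}).card : ℝ) = ∑ n ∈ Icc 1 M, ok Z y j n := by
    intro j
    have h := hSf j (fun _ => 1)
    rw [sum_const, nsmul_eq_mul, mul_one] at h
    rw [h]
    apply sum_congr rfl
    intro n _
    rw [mul_one]
  have h1 : ∀ j ∈ Icc 1 T, ∑ n ∈ Icc 1 M, ok Z y j n * wj P c Z j n ≤
      (G + a1 * (1 / 2 : ℝ) ^ b * Pb) * (1 + 2 * (1 / 2 : ℝ) ^ b) *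
        ((Sf Z M y {j}).card + √(x : ℝ)) + a1 * (2 ^ m * √(x : ℝ)) * L := by
    intro j hj
    rw [← hSf]
    exact H b hb x y hy hy1 hyx Z M j P c a1 m L Pb G hP hc hcL (hPb j hj) (hG j hj) hG0
  have h2 := sum_le_sum h1
  rw [sum_comm] at h2
  refine le_trans h2 (le_of_eq ?_)
  have e1 : ∑ j ∈ Icc 1 T, ((Sf Z M y {j}).card : ℝ) = ∑ n ∈ Icc 1 M, (Ns y T (n + Z) : ℝ) := by
    simp only [hcd]
    rw [sum_comm]
    apply sum_congr rfl
    intro n _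
    rw [sum_ok]
  rw [sum_add_distrib, ← mul_sum, sum_add_distrib, e1]
  simp only [sum_const, nsmul_eq_mul, Nat.card_Icc, Nat.add_sub_cancel]

end Pool.Agent.H37EP.M1U
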