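import Pool.Agent.H37EP.Main
import Pool.Agent.H37EP.Inst
import Pool.Agent.H37EP.M1U

/-!
# The two instances
-/

set_option autoImplicit false

namespace Pool.Agent.H37EP

open Finset Filter Pool.Agent.H37SQ

/-- the conclusion of `main5` -/
def Concl (r : ℕ) (θ ρ : ℝ) : Prop :=
    ∃ c δ : ℝ, 0 < c ∧ 0 < δ ∧ ∃ K : ℝ, 0 < K ∧ ∃ X0 : ℕ, ∀ X : ℕ, X0 ≤ X →
      ∀ Z M T : ℕ, (X : ℝ) ^ θ ≤ M → Z + M ≤ 2 * X → K * Real.log X ≤ T → (T : ℝ) ≤ Real.log X ^ 49 →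
        (((Ioc Z (Z + M)).filter (fun n => (cn r ((X : ℝ) ^ δ) T n : ℝ) < c * T / Real.log X)).card : ℝ) ≤
          ρ * M

theorem fin4 : Concl 4 0.999 0.159 := by
  obtain ⟨A0, F, f, hSF⟩ := Pool.Agent.W366.DC.SFX
  obtain ⟨h1, h2, h3⟩ := wts4 A0 F f hSF
  have hA := hSF.pos
  apply main5 M1U.t 4 0.999 0.2495 0.499 0.045 0.226 0.32 0.534 1.0005 (A0 * 6.103) (A0 * 4.923) (A0 * 0.185) 0.159
    (by norm_num) (by norm_num) (by norm_num) (by norm_num) (by norm_num) (by norm_num) (by norm_num) (by norm_num)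
    (by norm_num) (by norm_num) (by norm_num) (by norm_num) (by norm_num) h1 h2 h3 (by positivity) (by norm_num)
  have e : (0.159 : ℝ) * (A0 * 6.103 - A0 * 4.923) = A0 * (0.159 * 1.18) := by ring
  rw [e]
  exact mul_lt_mul_of_pos_left (by norm_num) hA

theorem fin3 : Concl 3 0.999 0.649 := by
  obtain ⟨A0, F, f, hSF⟩ := Pool.Agent.W366.DC.SFX
  obtain ⟨h1, h2, h3⟩ := wts3 A0 F f hSF
  have hA := hSF.pos
  apply main5 M1U.t 3 0.999 0.2495 0.499 0.062 0.112 0.464 0.5425 1.0005 (A0 * 4.429) (A0 * 1.599) (A0 * 1.829) 0.649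
    (by norm_num) (by norm_num) (by norm_num) (by norm_num) (by norm_num) (by norm_num) (by norm_num) (by norm_num)
    (by norm_num) (by norm_num) (by norm_num) (by norm_num) (by norm_num) h1 h2 h3 (by positivity) (by norm_num)
  have e : (0.649 : ℝ) * (A0 * 4.429 - A0 * 1.599) = A0 * (0.649 * 2.83) := by ring
  rw [e]
  exact mul_lt_mul_of_pos_left (by norm_num) hA

end Pool.Agent.H37EP
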