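import Pool.Agent.H37EP.Stm
import Pool.Agent.H37SQ.Main

/-!
# Integers with few prime factors above explicit proportions of the squares: lemmas for the assembly
-/

set_option autoImplicit false

namespace Pool.Agent.H37EP

open Finset Filter Pool.Agent.H373R2.T7 Pool.Agent.Y486.SQ Pool.Agent.Y882 Pool.Agent.W23.DC Pool.Agent.Y882.KW
open Pool.Agent.H37SQ
open Pool.Agent.Y862.SQ (rH leg z2 Ns V1)

open Classical in
/-- splitting of the weight -/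
lemma WB_split (Y : ℕ) (ε₁ ζ t υ a b : ℝ) (hζt : ζ ≤ t) (htυ : t ≤ υ) (N : ℕ) (cL c1 c2 : Finset ℕ → ℝ)
    (P : Finset ℕ)
    (hL : VV P cL (fun p => if p ∣ N then 1 else 0) ≤ if ∀ p ∈ pr Y ε₁ ζ, ¬ p ∣ N then 1 else 0)
    (h1 : (if ∀ p ∈ pr Y ε₁ ζ, ¬ p ∣ N then 1 else 0) *
        ∑ q ∈ pr Y ζ t, (a - b * tt Y q) * (if q ∣ N then 1 else 0) ≤ VV P c1 (fun p => if p ∣ N then 1 else 0))
    (h2 : (if ∀ p ∈ pr Y ε₁ ζ, ¬ p ∣ N then 1 else 0) *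
        ∑ q ∈ pr Y t υ, (a - b * tt Y q) * (if q ∣ N then 1 else 0) ≤ VV P c2 (fun p => if p ∣ N then 1 else 0)) :
    VV P (fun T => (cL T - c1 T) - c2 T) (fun p => if p ∣ N then 1 else 0) ≤ WB Y ε₁ ζ υ a b N := by
  have hset : pr Y ζ υ = pr Y ζ t ∪ pr Y t υ := by
    ext p
    unfold pr
    rw [mem_union, mem_filter, mem_filter, mem_filter]
    constructor
    · rintro ⟨g1, g2, g3, g4⟩
      rcases lt_or_ge (tt Y p) t with h | h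
      · exact Or.inl ⟨g1, g2, g3, h⟩
      · exact Or.inr ⟨g1, g2, h, g4⟩
    · rintro (⟨g1, g2, g3, g4⟩ | ⟨g1, g2, g3, g4⟩)
      · exact ⟨g1, g2, g3, g4.trans_le htυ⟩
      · exact ⟨g1, g2, hζt.trans g3, g4⟩
  have hdis : Disjoint (pr Y ζ t) (pr Y t υ) := by
    rw [disjoint_left]
    intro p hp hp'
    unfold pr at hp hp'
    rw [mem_filter] at hp hp'
    linarith [hp.2.2.2, hp'.2.2.1]
  have e1 := VV_sub P (fun T => cL T - c1 T) c2 (fun p => if p ∣ N then 1 else 0)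
  have e2 := VV_sub P cL c1 (fun p => if p ∣ N then 1 else 0)
  rw [e1, e2]
  unfold WB
  rw [hset, sum_union hdis]
  refine le_trans (sub_le_sub (sub_le_sub hL h1) h2) (le_of_eq ?_)
  ring

lemma markov (M : ℕ) (F : ℕ → ℝ) (hF : ∀ n ∈ Icc 1 M, 0 ≤ F n) (t A : ℝ) (ht : 0 < t)
    (hA : ∑ n ∈ Icc 1 M, F n ≤ A * t) : (((Icc 1 M).filter (fun n => t ≤ F n)).card : ℝ) ≤ A := by
  have h1 : (((Icc 1 M).filter (fun n => t ≤ F n)).card : ℝ) * t ≤ ∑ n ∈ Icc 1 M, F n := by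
    calc (((Icc 1 M).filter (fun n => t ≤ F n)).card : ℝ) * t =
        ∑ _n ∈ (Icc 1 M).filter (fun n => t ≤ F n), t := by rw [sum_const, nsmul_eq_mul]
      _ ≤ ∑ n ∈ (Icc 1 M).filter (fun n => t ≤ F n), F n := sum_le_sum fun n hn => (mem_filter.1 hn).2
      _ ≤ ∑ n ∈ Icc 1 M, F n :=
          sum_le_sum_of_subset_of_nonneg (filter_subset _ _) fun n hn _ => hF n hn
  exact le_of_mul_le_mul_right (h1.trans hA) ht

/-- the first moment of the numbers of the sifted integers, upper bound -/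
theorem momU (κ : ℝ) (hκ : 0 < κ) : ∃ K0 y0 T0 : ℕ, ∀ Z M y T : ℕ, y0 ≤ y → y ^ K0 ≤ M → T0 ≤ T →
    ∑ n ∈ Icc 1 M, (Ns y T (n + Z) : ℝ) ≤ (1 + κ) * (M * (T * V1 y)) + T * √(M : ℝ) := by
  obtain ⟨Ka, ya, Ta, ha⟩ := Pool.Agent.Y862.SQ.t_MOM 0 κ hκ
  refine ⟨Ka, ya, Ta, ?_⟩
  intro Z M y T hy hyM hT
  have h1 := ha Z M y T hy hyM hT
  have e1 : ∑ n ∈ Ioc Z (Z + M), ((Ns y T n).choose (0 + 1) : ℝ) = ∑ n ∈ Icc 1 M, (Ns y T (n + Z) : ℝ) := by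
    rw [sum_shift]
    apply sum_congr rfl
    intro n _
    rw [zero_add, Nat.choose_one_right]
  rw [e1] at h1
  have k1 := (abs_le.1 h1).2
  norm_num at k1
  linarith

/-- the error terms of the mean -/
lemma errs (X : ℕ) (M T V κV l κ3 θ σ τ₂ ε₁ s aM BM sx L2 μ : ℝ) (m : ℕ) (hX1 : (1 : ℝ) ≤ X) (hM : (X : ℝ) ^ θ ≤ M)
    (hT : 0 < T) (hκV : 0 < κV) (hl : 0 < l) (hκ3 : 0 < κ3) (hV : κV / l ≤ V) (hσθ : σ ≤ θ / 2)
    (hσ2 : 2 * σ + 2 * τ₂ ≤ θ) (hε₁ : 0 < ε₁) (hs : 0 < s) (haM : 0 < aM) (hBM : BM = aM * 2 ^ m) (hsx0 : 0 ≤ sx)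
    (hsx : sx ≤ (X : ℝ) ^ σ) (hL20 : 0 ≤ L2) (hL2 : L2 ≤ (X : ℝ) ^ (2 * τ₂)) (hμ : μ = T * V)
    (v10 : 8 / (κ3 * κV) * l ≤ (X : ℝ) ^ (θ / 2)) (v12 : BM * (4 / (ε₁ * s * κV)) * l ≤ (X : ℝ) ^ σ) :
    T * √M ≤ κ3 / 8 * (M * μ) ∧ T * sx ≤ κ3 / 8 * (M * μ) ∧
      T * (aM * (2 ^ m * sx) * L2) ≤ ε₁ * (s / 4) * (M * μ) := by
  have hX0 : (0 : ℝ) < X := by linarith
  have hmonoX : ∀ s t : ℝ, s ≤ t → (X : ℝ) ^ s ≤ (X : ℝ) ^ t := fun s t h =>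
    Real.rpow_le_rpow_of_exponent_le hX1 h
  have hM0 : 0 < M := lt_of_lt_of_le (by positivity) hM
  have hBM0 : 0 < BM := by rw [hBM]; positivity
  have hsM : (X : ℝ) ^ (θ / 2) ≤ √M := by
    apply Real.le_sqrt_of_sq_le
    have h2 : ((X : ℝ) ^ (θ / 2)) ^ 2 = (X : ℝ) ^ θ := by
      rw [← Real.rpow_natCast, ← Real.rpow_mul hX0.le]
      congr 1
      push_cast
      ring
    rw [h2]
    exact hM
  have hsM0 : 0 < √M := Real.sqrt_pos.2 hM0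
  have hsMM : √M * √M = M := Real.mul_self_sqrt hM0.le
  have hMμe : M * μ = T * (M * V) := by rw [hμ]; ring
  have hMVκ : M * (κV / l) ≤ M * V := mul_le_mul_of_nonneg_left hV hM0.le
  have r1 : √M ≤ κ3 / 8 * (M * V) := by
    have h1 : 8 / (κ3 * κV) * l ≤ √M := v10.trans hsM
    have h2 : 8 * l ≤ κ3 * κV * √M := by
      have := mul_le_mul_of_nonneg_left h1 (show 0 ≤ κ3 * κV by positivity)
      have e : κ3 * κV * (8 / (κ3 * κV) * l) = 8 * l := by field_simp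
      rwa [e] at this
    have h3 : √M * (8 * l) ≤ κ3 * κV * M := by
      calc √M * (8 * l) ≤ √M * (κ3 * κV * √M) := mul_le_mul_of_nonneg_left h2 hsM0.le
        _ = κ3 * κV * (√M * √M) := by ring
        _ = _ := by rw [hsMM]
    have h5 : √M ≤ κ3 / 8 * (M * (κV / l)) := by
      have e : κ3 / 8 * (M * (κV / l)) = κ3 * κV * M / (8 * l) := by field_simp
      rw [e, le_div_iff₀ (by positivity)]
      exact h3
    exact h5.trans (mul_le_mul_of_nonneg_left hMVκ (by positivity))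
  have r1' : T * √M ≤ κ3 / 8 * (M * μ) := by
    rw [hMμe]
    have := mul_le_mul_of_nonneg_left r1 hT.le
    linarith
  refine ⟨r1', ?_, ?_⟩
  · refine le_trans ?_ r1'
    apply mul_le_mul_of_nonneg_left _ hT.le
    exact hsx.trans ((hmonoX _ _ hσθ).trans hsM)
  · rw [hMμe]
    have h1 : aM * (2 ^ m * sx) * L2 ≤ BM * ((X : ℝ) ^ σ * (X : ℝ) ^ (2 * τ₂)) := by
      calc aM * (2 ^ m * sx) * L2 ≤ aM * (2 ^ m * (X : ℝ) ^ σ) * (X : ℝ) ^ (2 * τ₂) := by gcongr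
        _ = _ := by rw [hBM]; ring
    have h2 : BM * (4 * l) ≤ ε₁ * s * κV * (X : ℝ) ^ σ := by
      have := mul_le_mul_of_nonneg_left v12 (show 0 ≤ ε₁ * s * κV by positivity)
      have e : ε₁ * s * κV * (BM * (4 / (ε₁ * s * κV)) * l) = BM * (4 * l) := by field_simp
      rwa [e] at this
    have hXX : (X : ℝ) ^ σ * ((X : ℝ) ^ σ * (X : ℝ) ^ (2 * τ₂)) ≤ M := by
      rw [← Real.rpow_add hX0, ← Real.rpow_add hX0]
      refine le_trans (hmonoX _ _ ?_) hM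
      linarith
    have h3 : BM * ((X : ℝ) ^ σ * (X : ℝ) ^ (2 * τ₂)) * (4 * l) ≤ ε₁ * s * κV * M := by
      calc BM * ((X : ℝ) ^ σ * (X : ℝ) ^ (2 * τ₂)) * (4 * l) =
          (BM * (4 * l)) * ((X : ℝ) ^ σ * (X : ℝ) ^ (2 * τ₂)) := by ring
        _ ≤ (ε₁ * s * κV * (X : ℝ) ^ σ) * ((X : ℝ) ^ σ * (X : ℝ) ^ (2 * τ₂)) :=
            mul_le_mul_of_nonneg_right h2 (by positivity)
        _ = ε₁ * s * κV * ((X : ℝ) ^ σ * ((X : ℝ) ^ σ * (X : ℝ) ^ (2 * τ₂))) := by ring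
        _ ≤ ε₁ * s * κV * M := mul_le_mul_of_nonneg_left hXX (by positivity)
    have h4 : BM * ((X : ℝ) ^ σ * (X : ℝ) ^ (2 * τ₂)) ≤ ε₁ * (s / 4) * (M * (κV / l)) := by
      have e : ε₁ * (s / 4) * (M * (κV / l)) = ε₁ * s * κV * M / (4 * l) := by field_simp
      rw [e, le_div_iff₀ (by positivity)]
      exact h3
    have h5 := mul_le_mul_of_nonneg_left hMVκ (show 0 ≤ ε₁ * (s / 4) by positivity)
    have h6 := mul_le_mul_of_nonneg_left (h1.trans (h4.trans h5)) hT.le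
    linarith

/-- the mean, a real inequality -/
lemma real_mean (ε₁ g2 s κ3 δb Q N1 Tx E U : ℝ) (hε : 0 < ε₁) (hg2 : 0 ≤ g2) (hs : 0 < s) (hκ : 0 < κ3)
    (hκ1 : κ3 ≤ 1) (hκs : κ3 * (g2 + s) = s / 2) (hδ0 : 0 ≤ δb) (hδ : δb ≤ κ3 / 8) (hQ0 : 0 ≤ Q)
    (hQ : Q ≤ ε₁ * (s / 4)) (hN0 : 0 ≤ N1 + Tx) (hN : N1 + Tx ≤ (1 + κ3 / 2) * U) (hU : 0 ≤ U)
    (hE : E ≤ ε₁ * (s / 4) * U) :
    (ε₁ * g2 + Q) * (1 + 2 * δb) * (N1 + Tx) + E ≤ ε₁ * (g2 + s) * U := by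
  have k2 : ε₁ * g2 + Q ≤ ε₁ * (g2 + s / 4) := by linarith
  have k3 : 1 + 2 * δb ≤ 1 + κ3 / 4 := by linarith
  have k5 : (ε₁ * g2 + Q) * (1 + 2 * δb) * (N1 + Tx) ≤ (ε₁ * (g2 + s / 4)) * (1 + κ3 / 4) * ((1 + κ3 / 2) * U) := by
    apply mul_le_mul _ hN hN0 (by positivity)
    exact mul_le_mul k2 k3 (by positivity) (by positivity)
  have k6 : (1 + κ3 / 4) * (1 + κ3 / 2) ≤ 1 + κ3 := by nlinarith
  have k7 : (ε₁ * (g2 + s / 4)) * (1 + κ3 / 4) * ((1 + κ3 / 2) * U) ≤ (ε₁ * (g2 + s / 4)) * (1 + κ3) * U := by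
    have := mul_le_mul_of_nonneg_left k6 (show 0 ≤ ε₁ * (g2 + s / 4) * U by positivity)
    linarith
  have k8 : κ3 * (g2 + s / 4) ≤ s / 2 := by
    have h2 : κ3 * (g2 + s / 4) ≤ κ3 * (g2 + s) := mul_le_mul_of_nonneg_left (by linarith) hκ.le
    linarith
  have k9 : (ε₁ * (g2 + s / 4)) * (1 + κ3) * U ≤ ε₁ * (g2 + s / 4 + s / 2) * U := by
    apply mul_le_mul_of_nonneg_right _ hU
    have := mul_le_mul_of_nonneg_left k8 hε.le
    linarith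
  have e : ε₁ * (g2 + s) * U = ε₁ * (g2 + s / 4 + s / 2) * U + ε₁ * (s / 4) * U := by ring
  rw [e]
  linarith

open Classical in
/-- the last step: union of the four exceptional sets -/
lemma fin_step (M : ℕ) (Nf Fn LV WM cf : ℕ → ℝ) (Sq : ℕ → Prop) (μ s ε₁ gC εl ε' ρ thr : ℝ) (hμ : 0 < μ)
    (hε : 0 < ε₁) (hgC : 0 < gC) (hεl : gC * εl ≤ s) (hεl2 : εl ≤ ε' / 4) (hε'0 : 0 ≤ ε')
    (hthr : thr ≤ ε₁ * s * μ)
    (hE1 : (((Icc 1 M).filter (fun n => εl * μ < |Nf n - μ|)).card : ℝ) ≤ εl * M)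
    (hE2 : (((Icc 1 M).filter (fun n => Fn n < -(ε₁ * s * μ))).card : ℝ) ≤ ε' / 4 * M)
    (hE3 : (((Icc 1 M).filter (fun n => Sq n)).card : ℝ) ≤ ε' / 4 * M)
    (hE4 : (((Icc 1 M).filter (fun n => (gC - 3 * s) * (ε₁ * μ) ≤ WM n)).card : ℝ) ≤ (ρ - ε') * M)
    (hpt : ∀ n ∈ Icc 1 M, ¬ Sq n → (Fn n + LV n) - WM n ≤ cf n)
    (hlow : ∀ n ∈ Icc 1 M, ε₁ * gC * Nf n ≤ LV n) :
    (((Icc 1 M).filter (fun n => cf n < thr)).card : ℝ) ≤ ρ * M := by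
  have hsub : (Icc 1 M).filter (fun n => cf n < thr) ⊆
      (((Icc 1 M).filter (fun n => εl * μ < |Nf n - μ|) ∪
      (Icc 1 M).filter (fun n => Fn n < -(ε₁ * s * μ))) ∪
      (Icc 1 M).filter (fun n => Sq n)) ∪
      (Icc 1 M).filter (fun n => (gC - 3 * s) * (ε₁ * μ) ≤ WM n) := by
    intro n hn
    rw [mem_filter] at hn
    obtain ⟨hn1, hn2⟩ := hn
    by_contra hcon
    rw [mem_union, mem_union, mem_union, mem_filter, mem_filter, mem_filter, mem_filter] at hcon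
    push Not at hcon
    obtain ⟨⟨⟨q1, q2⟩, q3⟩, q4⟩ := hcon
    have q1 := q1 hn1
    have q2 := q2 hn1
    have q3 := q3 hn1
    have q4 := q4 hn1
    have hNs : (1 - εl) * μ ≤ Nf n := by
      have h1 := (abs_le.1 q1).1
      linarith
    have h1 := hpt n hn1 q3
    have h2 := hlow n hn1
    have h5 := mul_le_mul_of_nonneg_left hNs (show 0 ≤ ε₁ * gC by positivity)
    have h5' : ε₁ * gC * ((1 - εl) * μ) = ε₁ * μ * gC - ε₁ * μ * (gC * εl) := by ring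
    have h5'' : ε₁ * μ * (gC * εl) ≤ ε₁ * μ * s := mul_le_mul_of_nonneg_left hεl (by positivity)
    have e : (gC - 3 * s) * (ε₁ * μ) = ε₁ * μ * gC - 3 * (ε₁ * s * μ) := by ring
    rw [e] at q4
    have e2 : ε₁ * μ * s = ε₁ * s * μ := by ring
    linarith
  have hcard := (card_le_card hsub).trans ((card_union_le _ _).trans
    (Nat.add_le_add_right ((card_union_le _ _).trans (Nat.add_le_add_right (card_union_le _ _) _)) _))
  have hcardr : (((Icc 1 M).filter (fun n => cf n < thr)).card : ℝ) ≤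
      (((((Icc 1 M).filter (fun n => εl * μ < |Nf n - μ|)).card : ℝ) +
      (((Icc 1 M).filter (fun n => Fn n < -(ε₁ * s * μ))).card : ℝ)) +
      (((Icc 1 M).filter (fun n => Sq n)).card : ℝ)) +
      (((Icc 1 M).filter (fun n => (gC - 3 * s) * (ε₁ * μ) ≤ WM n)).card : ℝ) := by
    exact_mod_cast hcard
  have hM0 : (0 : ℝ) ≤ M := Nat.cast_nonneg _
  have hfin2 : εl * M ≤ ε' / 4 * M := mul_le_mul_of_nonneg_right hεl2 hM0
  have h34 : 0 ≤ ε' * M := by positivity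
  linarith

end Pool.Agent.H37EP
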