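import Pool.Agent.H37EP.Lem

/-!
# Integers with few prime factors above explicit proportions of the squares: further lemmas for the assembly
-/

set_option autoImplicit false

namespace Pool.Agent.H37EP

open Finset Filter Pool.Agent.H373R2.T7 Pool.Agent.Y486.SQ Pool.Agent.Y882 Pool.Agent.W23.DC Pool.Agent.Y882.KW
open Pool.Agent.H37SQ
open Pool.Agent.Y862.SQ (rH leg z2 Ns V1)

/-- the scales -/
structure Sc (X : ℕ) (ε₁ σ c1 : ℝ) (E y x Y : ℕ) : Prop where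
  X3 : (3 : ℝ) ≤ X
  Y2 : 2 ≤ Y
  XY : X ≤ Y
  YX : Y = X ^ 2
  Yp : ∀ s : ℝ, (Y : ℝ) ^ s = (X : ℝ) ^ (2 * s)
  lY : Real.log Y = 2 * Real.log X
  hy : y = ⌈(Y : ℝ) ^ ε₁⌉₊ - 1
  ylt : (y : ℝ) < (Y : ℝ) ^ ε₁
  yge : (X : ℝ) ^ (2 * ε₁) - 1 ≤ y
  y2 : 2 ≤ y
  ypow : ∀ k : ℕ, (y : ℝ) ^ k ≤ (X : ℝ) ^ (2 * (ε₁ * k))
  yx : y ^ E ≤ x
  sx : √(x : ℝ) ≤ (X : ℝ) ^ σ
  Vy : c1 / (2 * ε₁ * Real.log X) ≤ V1 y

lemma scale (X : ℕ) (ε₁ σ c1 : ℝ) (E : ℕ) (hX : 3 ≤ X) (hε : 0 < ε₁) (hc1 : 0 < c1)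
    (hV : ∀ y : ℕ, 2 ≤ y → c1 / Real.log y ≤ V1 y) (h3 : 3 ≤ (X : ℝ) ^ (2 * ε₁)) (hE : ε₁ * E ≤ σ) :
    ∃ y x Y : ℕ, Sc X ε₁ σ c1 E y x Y := by
  have hXr : (3 : ℝ) ≤ X := by exact_mod_cast hX
  have hX0 : (0 : ℝ) < X := by linarith
  have hX1r : (1 : ℝ) ≤ X := by linarith
  set Y : ℕ := X ^ 2 with hY
  have hYp : ∀ s : ℝ, (Y : ℝ) ^ s = (X : ℝ) ^ (2 * s) := by
    intro s
    rw [hY]
    push_cast
    rw [← Real.rpow_natCast, ← Real.rpow_mul hX0.le]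
    norm_num
  have hYX : X ≤ Y := by rw [hY]; exact Nat.le_self_pow (by norm_num) X
  have hY2 : 2 ≤ Y := by omega
  have hY0 : (0 : ℝ) < Y := by exact_mod_cast (by omega : 0 < Y)
  have hlY : Real.log Y = 2 * Real.log X := by
    rw [hY]
    push_cast
    rw [Real.log_pow]
    norm_num
  set y : ℕ := ⌈(Y : ℝ) ^ ε₁⌉₊ - 1 with hy
  have hceil : 0 < ⌈(Y : ℝ) ^ ε₁⌉₊ := Nat.ceil_pos.2 (by positivity)
  have hycast : (y : ℝ) = (⌈(Y : ℝ) ^ ε₁⌉₊ : ℝ) - 1 := by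
    rw [hy, Nat.cast_sub (by omega)]
    norm_num
  have hylt : (y : ℝ) < (Y : ℝ) ^ ε₁ := by
    rw [hycast]
    have := Nat.ceil_lt_add_one (show 0 ≤ (Y : ℝ) ^ ε₁ by positivity)
    linarith
  have hyge : (X : ℝ) ^ (2 * ε₁) - 1 ≤ y := by
    rw [hycast, ← hYp]
    have := Nat.le_ceil ((Y : ℝ) ^ ε₁)
    linarith
  have hy2r : (2 : ℝ) ≤ y := by linarith
  have hy2 : 2 ≤ y := by exact_mod_cast hy2r
  have hy0 : (0 : ℝ) < y := by linarith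
  have hypow : ∀ k : ℕ, (y : ℝ) ^ k ≤ (X : ℝ) ^ (2 * (ε₁ * k)) := by
    intro k
    calc (y : ℝ) ^ k ≤ ((Y : ℝ) ^ ε₁) ^ k := pow_le_pow_left₀ hy0.le hylt.le k
      _ = (Y : ℝ) ^ (ε₁ * k) := by rw [← Real.rpow_natCast, ← Real.rpow_mul hY0.le]
      _ = _ := hYp _
  refine ⟨y, ⌊(X : ℝ) ^ (2 * σ)⌋₊, Y, hXr, hY2, hYX, hY, hYp, hlY, hy, hylt, hyge, hy2, hypow, ?_, ?_, ?_⟩
  · apply Nat.le_floor
    push_cast
    refine (hypow E).trans ?_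
    apply Real.rpow_le_rpow_of_exponent_le hX1r
    linarith
  · rw [Real.sqrt_le_left (by positivity)]
    have h1 : ((⌊(X : ℝ) ^ (2 * σ)⌋₊ : ℕ) : ℝ) ≤ (X : ℝ) ^ (2 * σ) := Nat.floor_le (by positivity)
    have h2 : ((X : ℝ) ^ σ) ^ 2 = (X : ℝ) ^ (2 * σ) := by
      rw [← Real.rpow_natCast, ← Real.rpow_mul hX0.le]
      congr 1
      push_cast
      ring
    rw [h2]
    exact h1
  · have hlogy : Real.log y ≤ 2 * ε₁ * Real.log X := by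
      have h1 : Real.log y ≤ Real.log ((Y : ℝ) ^ ε₁) := Real.log_le_log hy0 hylt.le
      rw [Real.log_rpow hY0, hlY] at h1
      linarith
    have hlogy0 : 0 < Real.log y := Real.log_pos (by linarith)
    exact (div_le_div_of_nonneg_left hc1.le hlogy0 hlogy).trans (hV y hy2)

lemma Sc.yK {X : ℕ} {ε₁ σ c1 : ℝ} {E y x Y : ℕ} (h : Sc X ε₁ σ c1 E y x Y) (K0 M : ℕ) (θ : ℝ)
    (hK : ε₁ * K0 ≤ θ / 2) (hM : (X : ℝ) ^ θ ≤ M) : y ^ K0 ≤ M := by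
  have hX := h.X3
  have h1 : ((y ^ K0 : ℕ) : ℝ) ≤ M := by
    push_cast
    refine (h.ypow K0).trans ((Real.rpow_le_rpow_of_exponent_le (by linarith) (by linarith)).trans hM)
  exact_mod_cast h1

lemma Sc.ge {X : ℕ} {ε₁ σ c1 : ℝ} {E y x Y : ℕ} (h : Sc X ε₁ σ c1 E y x Y) (N : ℕ) (R : ℝ)
    (hR : R ≤ (X : ℝ) ^ (2 * ε₁)) (hN : (N : ℝ) + 1 ≤ R) : N ≤ y := by
  have h1 := h.yge
  have : (N : ℝ) ≤ y := by linarith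
  exact_mod_cast this

/-- sizes of `T` -/
lemma sizes (X : ℕ) (M T y : ℕ) (l θ K R : ℝ) (T0 T0' T0'' : ℕ) (hl1 : 1 ≤ l) (hK : 0 < K)
    (v1 : ((T0 : ℝ) + T0' + T0'' + 1) / K ≤ l) (v3 : 2 * l ^ 49 ≤ R) (hy : R - 1 ≤ y)
    (v4 : 1 * l ^ 245 ≤ (X : ℝ) ^ θ) (hM : (X : ℝ) ^ θ ≤ M) (hKT : K * l ≤ T) (hTX : (T : ℝ) ≤ l ^ 49) :
    T0 ≤ T ∧ T0' ≤ T ∧ T0'' ≤ T ∧ 1 ≤ T ∧ T ≤ y ∧ T ^ 5 ≤ M ∧ T ^ 4 ≤ M ∧ T ≤ M ∧ (T : ℝ) ^ 2 ≤ l ^ 98 := by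
  have hl49 : 1 ≤ l ^ 49 := one_le_pow₀ hl1
  have hT0r : (T0 : ℝ) + T0' + T0'' + 1 ≤ T := by
    rw [div_le_iff₀ hK] at v1
    linarith
  have hq5 : (0 : ℝ) ≤ T0 := Nat.cast_nonneg _
  have hq6 : (0 : ℝ) ≤ T0' := Nat.cast_nonneg _
  have hq7 : (0 : ℝ) ≤ T0'' := Nat.cast_nonneg _
  have a1 : T0 ≤ T := by
    have : (T0 : ℝ) ≤ T := by linarith
    exact_mod_cast this
  have a2 : T0' ≤ T := by
    have : (T0' : ℝ) ≤ T := by linarith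
    exact_mod_cast this
  have a3 : T0'' ≤ T := by
    have : (T0'' : ℝ) ≤ T := by linarith
    exact_mod_cast this
  have hT1r : (1 : ℝ) ≤ T := by linarith
  have hT1 : 1 ≤ T := by exact_mod_cast hT1r
  have hTnn : (0 : ℝ) ≤ T := by linarith
  have hTyr : (T : ℝ) ≤ y := by linarith
  have hTy : T ≤ y := by exact_mod_cast hTyr
  have hT5 : T ^ 5 ≤ M := by
    have h1 : ((T ^ 5 : ℕ) : ℝ) ≤ M := by
      push_cast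
      calc (T : ℝ) ^ 5 ≤ (l ^ 49) ^ 5 := pow_le_pow_left₀ hTnn hTX 5
        _ = 1 * l ^ 245 := by ring
        _ ≤ (X : ℝ) ^ θ := v4
        _ ≤ M := hM
    exact_mod_cast h1
  have hT4 : T ^ 4 ≤ M := (Nat.pow_le_pow_right hT1 (by norm_num)).trans hT5
  have hTM : T ≤ M := (Nat.le_self_pow (by norm_num) T).trans hT5
  have hT2 : (T : ℝ) ^ 2 ≤ l ^ 98 := by
    calc (T : ℝ) ^ 2 ≤ (l ^ 49) ^ 2 := pow_le_pow_left₀ hTnn hTX 2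
      _ = l ^ 98 := by ring
  exact ⟨a1, a2, a3, hT1, hTy, hT5, hT4, hTM, hT2⟩

/-- the expected number is large -/
lemma mu_large (T : ℕ) (V K c1 ε₁ l μ0 μ Kl B g4 : ℝ) (hμ : μ = T * V) (hc1 : 0 < c1) (hε : 0 < ε₁) (hl : 0 < l)
    (hμ0 : μ0 = max 1 (max Kl (12 * B ^ 2 / g4))) (hK : K = 2 * ε₁ * μ0 / c1) (hKT : K * l ≤ T) (hg4 : 0 < g4)
    (hV : c1 / (2 * ε₁ * l) ≤ V) :
    1 ≤ μ ∧ Kl ≤ μ ∧ 12 * B ^ 2 ≤ g4 * μ ∧ T * (c1 / (2 * ε₁ * l)) ≤ μ := by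
  have hTnn : (0 : ℝ) ≤ T := Nat.cast_nonneg _
  have hμge : T * (c1 / (2 * ε₁ * l)) ≤ μ := by
    rw [hμ]
    exact mul_le_mul_of_nonneg_left hV hTnn
  have hμμ0 : μ0 ≤ μ := by
    refine le_trans ?_ hμge
    calc μ0 = (K * l) * (c1 / (2 * ε₁ * l)) := by rw [hK]; field_simp
      _ ≤ T * (c1 / (2 * ε₁ * l)) := mul_le_mul_of_nonneg_right hKT (by positivity)
  refine ⟨?_, ?_, ?_, hμge⟩
  · refine le_trans ?_ hμμ0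
    rw [hμ0]
    exact le_max_left _ _
  · refine le_trans ?_ hμμ0
    rw [hμ0]
    exact (le_max_left _ _).trans (le_max_right _ _)
  · have h1 : 12 * B ^ 2 / g4 ≤ μ := by
      refine le_trans ?_ hμμ0
      rw [hμ0]
      exact (le_max_right _ _).trans (le_max_right _ _)
    rw [div_le_iff₀ hg4] at h1
    linarith

/-- the size of `n ^ 2 + j` -/
lemma N_le (X Y Z M T : ℕ) (S : ℝ) (hX : (3 : ℝ) ≤ X) (hYp : ∀ s : ℝ, (Y : ℝ) ^ s = (X : ℝ) ^ (2 * s))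
    (hZM : Z + M ≤ 2 * X) (hTM : T ≤ M) (v6 : (5 : ℝ) ≤ (X : ℝ) ^ (2 * S - 2)) :
    ∀ n ∈ Icc 1 M, ∀ j ∈ Icc 1 T, (((n + Z) ^ 2 + j : ℕ) : ℝ) ≤ (Y : ℝ) ^ S := by
  intro n hn j hj
  rw [mem_Icc] at hn hj
  have hX3 : 3 ≤ X := by exact_mod_cast hX
  have hX0 : (0 : ℝ) < X := by linarith
  have h1 : n + Z ≤ 2 * X := by omega
  have h2 : j ≤ X ^ 2 := by
    have : 2 * X ≤ X ^ 2 := by
      rw [sq]
      exact Nat.mul_le_mul_right X (by omega)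
    omega
  have h3 : (n + Z) ^ 2 + j ≤ 5 * X ^ 2 := by
    have := Nat.pow_le_pow_left h1 2
    have e : (2 * X) ^ 2 = 4 * X ^ 2 := by ring
    omega
  have h4 : (((n + Z) ^ 2 + j : ℕ) : ℝ) ≤ 5 * (X : ℝ) ^ 2 := by exact_mod_cast h3
  refine h4.trans ?_
  rw [hYp]
  calc 5 * (X : ℝ) ^ 2 ≤ (X : ℝ) ^ (2 * S - 2) * (X : ℝ) ^ 2 := mul_le_mul_of_nonneg_right v6 (by positivity)
    _ = (X : ℝ) ^ (2 * S) := by
        rw [← Real.rpow_natCast, ← Real.rpow_add hX0]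
        congr 1
        push_cast
        ring

/-- from the second moment to the exceptional set -/
lemma sec_fin (X : ℕ) (M T θ σ τ₁ sx L l μ a1 Pb B bb yy κ1 ρ' g4 G0 ε' f0 ε₁ κ0 S2 S1 : ℝ) (m : ℕ) (Ss : ℝ)
    (hX1 : (1 : ℝ) ≤ X) (hM : (X : ℝ) ^ θ ≤ M) (hl : 0 ≤ l) (hT2 : T ^ 2 ≤ l ^ 98)
    (hsx0 : 0 ≤ sx) (hsx : sx ≤ (X : ℝ) ^ σ) (hσθ : σ ≤ θ / 2) (hσ1 : σ ≤ θ / 2 - 2 * τ₁) (hL0 : 0 ≤ L)
    (hLr : L ≤ (X : ℝ) ^ (2 * τ₁)) (hμ1 : 1 ≤ μ) (ha1 : 0 < a1) (hε₁ : 0 < ε₁) (hε'0 : 0 < ε')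
    (hρ'0 : 0 < ρ') (hρ' : ρ' = g4 / a1 ^ 2) (hg4 : g4 = ε' / 16 * (G0 / 4) ^ 2) (hG0 : G0 = ε₁ * f0)
    (hPb : Pb = 3 / ε₁) (hbb : bb ≤ κ0 * ε₁ ^ 4) (hbb0 : 0 ≤ bb) (hyy0 : 0 ≤ yy) (hyy : yy ≤ κ1)
    (hκ1 : κ1 = 4 * (κ0 * ε₁ ^ 4))
    (hκ1le : κ1 ≤ 4 * (ε' * f0 ^ 2 / (147456 * a1 ^ 2) * ε₁ ^ 4)) (hμB : 12 * B ^ 2 ≤ g4 * μ)
    (hN2 : S2 ≤ 7 * (M * μ ^ 2)) (hN1 : S1 ≤ 3 * (M * μ))
    (v8 : 4 * 2 ^ (2 * m) / ρ' * l ^ 98 ≤ (X : ℝ) ^ σ) (v8' : 1 * l ^ 98 ≤ (X : ℝ) ^ (θ / 2))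
    (key : Ss ≤ a1 ^ 2 * ((4 * bb + yy) * Pb ^ 2 * (2 * S2 + 2 * T ^ 2 * sx) +
      T ^ 2 * (4 * (2 ^ (2 * m) * sx) * L ^ 2)) + (2 * B) ^ 2 * S1) :
    Ss ≤ ε' / 4 * M * (G0 / 4 * μ) ^ 2 := by
  have hX0 : (0 : ℝ) < X := by linarith
  have hmonoX : ∀ s t : ℝ, s ≤ t → (X : ℝ) ^ s ≤ (X : ℝ) ^ t := fun s t h =>
    Real.rpow_le_rpow_of_exponent_le hX1 h
  have hM0 : 0 ≤ M := le_trans (by positivity) hM
  have hMμ2 : M ≤ M * μ ^ 2 := le_mul_of_one_le_right hM0 (one_le_pow₀ hμ1)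
  have hterm1 : 2 * T ^ 2 * sx ≤ 2 * (M * μ ^ 2) := by
    have h1 : T ^ 2 * sx ≤ M := by
      calc T ^ 2 * sx ≤ l ^ 98 * (X : ℝ) ^ σ := mul_le_mul hT2 hsx hsx0 (by positivity)
        _ ≤ (X : ℝ) ^ (θ / 2) * (X : ℝ) ^ (θ / 2) := by
            apply mul_le_mul (by linarith) (hmonoX _ _ hσθ) (by positivity) (by positivity)
        _ = (X : ℝ) ^ θ := by
            rw [← Real.rpow_add hX0]
            congr 1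
            ring
        _ ≤ M := hM
    linarith
  have hterm2 : T ^ 2 * (4 * (2 ^ (2 * m) * sx) * L ^ 2) ≤ ρ' * M := by
    have hL2 : L ^ 2 ≤ (X : ℝ) ^ (4 * τ₁) := by
      calc L ^ 2 ≤ ((X : ℝ) ^ (2 * τ₁)) ^ 2 := pow_le_pow_left₀ hL0 hLr 2
        _ = (X : ℝ) ^ (4 * τ₁) := by
            rw [← Real.rpow_natCast, ← Real.rpow_mul hX0.le]
            congr 1
            push_cast
            ring
    have h8 : 4 * 2 ^ (2 * m) * l ^ 98 ≤ ρ' * (X : ℝ) ^ σ := by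
      have h9 : 4 * 2 ^ (2 * m) / ρ' * l ^ 98 = 4 * 2 ^ (2 * m) * l ^ 98 / ρ' := by ring
      rw [h9, div_le_iff₀ hρ'0] at v8
      linarith
    calc T ^ 2 * (4 * (2 ^ (2 * m) * sx) * L ^ 2) ≤
        l ^ 98 * (4 * (2 ^ (2 * m) * (X : ℝ) ^ σ) * (X : ℝ) ^ (4 * τ₁)) := by gcongr
      _ = (4 * 2 ^ (2 * m) * l ^ 98) * ((X : ℝ) ^ σ * (X : ℝ) ^ (4 * τ₁)) := by ring
      _ ≤ (ρ' * (X : ℝ) ^ σ) * ((X : ℝ) ^ σ * (X : ℝ) ^ (4 * τ₁)) := mul_le_mul_of_nonneg_right h8 (by positivity)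
      _ ≤ ρ' * (X : ℝ) ^ θ := by
          rw [mul_assoc, ← Real.rpow_add hX0, ← Real.rpow_add hX0]
          apply mul_le_mul_of_nonneg_left _ hρ'0.le
          apply hmonoX
          linarith
      _ ≤ ρ' * M := mul_le_mul_of_nonneg_left hM hρ'0.le
  set κ : ℝ := 4 * bb + yy with hκ
  have hκ0' : 0 ≤ κ := by positivity
  have hκle : κ ≤ 2 * κ1 := by
    have h1 : 4 * bb ≤ κ1 := by
      rw [hκ1]
      linarith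
    linarith
  have hg40 : 0 ≤ g4 := by rw [hg4]; positivity
  have hSs : Ss ≤ a1 ^ 2 * (κ * Pb ^ 2 * (16 * (M * μ ^ 2)) + ρ' * M) + 12 * B ^ 2 * (M * μ) := by
    refine key.trans ?_
    have h1 : κ * Pb ^ 2 * (2 * S2 + 2 * T ^ 2 * sx) ≤ κ * Pb ^ 2 * (16 * (M * μ ^ 2)) := by
      apply mul_le_mul_of_nonneg_left _ (by positivity)
      linarith
    have h2 : (2 * B) ^ 2 * S1 ≤ 12 * B ^ 2 * (M * μ) := by
      have := mul_le_mul_of_nonneg_left hN1 (show 0 ≤ (2 * B) ^ 2 by positivity)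
      refine this.trans (le_of_eq ?_)
      ring
    have h3 : a1 ^ 2 * (κ * Pb ^ 2 * (2 * S2 + 2 * T ^ 2 * sx) + T ^ 2 * (4 * (2 ^ (2 * m) * sx) * L ^ 2)) ≤
        a1 ^ 2 * (κ * Pb ^ 2 * (16 * (M * μ ^ 2)) + ρ' * M) :=
      mul_le_mul_of_nonneg_left (add_le_add h1 hterm2) (by positivity)
    exact add_le_add h3 h2
  have hle1 := le_e1 ε' f0 a1 ε₁ κ ha1.ne' hε₁.ne' (hκle.trans (by linarith))
  have hle2 := le_e2 a1 g4 ha1.ne'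
  rw [← hPb, ← hG0] at hle1
  rw [← hρ', hg4] at hle2
  rw [hg4] at hμB hg40
  exact fin_real ε' a1 κ Pb ρ' B μ G0 M _ hM0 hμ1 hSs hle1 hle2 hμB hg40

/-- the error of the squares -/
lemma sq_err (X : ℕ) (M T Yζ Yυ l ζ υ θ ε' : ℝ) (hX0 : (0 : ℝ) < X) (hT0 : 0 ≤ T) (hTX : T ≤ l ^ 49) (hM : (X : ℝ) ^ θ ≤ M)
    (hε'0 : 0 < ε') (h1 : Yζ = (X : ℝ) ^ (2 * ζ)) (h2 : Yυ = (X : ℝ) ^ (2 * υ))
    (v9 : 32 / ε' * l ^ 49 ≤ (X : ℝ) ^ (2 * ζ)) (v9' : 16 / ε' * l ^ 49 ≤ (X : ℝ) ^ (θ - 2 * υ)) :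
    T * (4 * M / Yζ + 2 * Yυ) ≤ ε' / 4 * M := by
  rw [h1, h2]
  have hM0 : 0 ≤ M := le_trans (by positivity) hM
  have hXζ : (0 : ℝ) < (X : ℝ) ^ (2 * ζ) := by positivity
  have k1 : T * (4 * M / (X : ℝ) ^ (2 * ζ)) ≤ ε' / 8 * M := by
    have h1 : T * (32 / ε') ≤ (X : ℝ) ^ (2 * ζ) := by
      refine le_trans ?_ v9
      rw [mul_comm]
      exact mul_le_mul_of_nonneg_left hTX (by positivity)
    have h2 : T * 32 ≤ ε' * (X : ℝ) ^ (2 * ζ) := by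
      have h3 := mul_le_mul_of_nonneg_left h1 hε'0.le
      have e : ε' * (T * (32 / ε')) = T * 32 := by field_simp
      rwa [e] at h3
    rw [mul_div_assoc', div_le_iff₀ hXζ]
    have h4 := mul_le_mul_of_nonneg_right h2 hM0
    linarith
  have k2 : T * (2 * (X : ℝ) ^ (2 * υ)) ≤ ε' / 8 * M := by
    have h1 : T * (16 / ε') ≤ (X : ℝ) ^ (θ - 2 * υ) := by
      refine le_trans ?_ v9'
      rw [mul_comm]
      exact mul_le_mul_of_nonneg_left hTX (by positivity)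
    have h2 : T * 16 ≤ ε' * (X : ℝ) ^ (θ - 2 * υ) := by
      have h3 := mul_le_mul_of_nonneg_left h1 hε'0.le
      have e : ε' * (T * (16 / ε')) = T * 16 := by field_simp
      rwa [e] at h3
    have h4 := mul_le_mul_of_nonneg_right h2 (show 0 ≤ (X : ℝ) ^ (2 * υ) by positivity)
    have h5 : (X : ℝ) ^ (θ - 2 * υ) * (X : ℝ) ^ (2 * υ) = (X : ℝ) ^ θ := by
      rw [← Real.rpow_add hX0]
      congr 1
      ring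
    have h6 : ε' * (X : ℝ) ^ (θ - 2 * υ) * (X : ℝ) ^ (2 * υ) ≤ ε' * M := by
      rw [mul_assoc, h5]
      exact mul_le_mul_of_nonneg_left hM hε'0.le
    linarith
  rw [mul_add]
  linarith

/-- the last step: union of the four exceptional sets -/
lemma fin_step2 (M : ℕ) (A0 A1 A2 A3 A4 : Finset ℕ) (Nf Fn LV WM cf : ℕ → ℝ) (Sq : ℕ → Prop)
    (μ s ε₁ gC εl ε' ρ thr : ℝ) (hμ : 0 < μ)
    (hε : 0 < ε₁) (hgC : 0 < gC) (hεl : gC * εl ≤ s) (hεl2 : εl ≤ ε' / 4) (hε'0 : 0 ≤ ε')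
    (hthr : thr ≤ ε₁ * s * μ)
    (hE1 : (A1.card : ℝ) ≤ εl * M) (hE2 : (A2.card : ℝ) ≤ ε' / 4 * M)
    (hE3 : (A3.card : ℝ) ≤ ε' / 4 * M) (hE4 : (A4.card : ℝ) ≤ (ρ - ε') * M)
    (h0 : ∀ n ∈ A0, n ∈ Icc 1 M ∧ cf n < thr)
    (h1 : ∀ n ∈ Icc 1 M, εl * μ < |Nf n - μ| → n ∈ A1)
    (h2 : ∀ n ∈ Icc 1 M, Fn n < -(ε₁ * s * μ) → n ∈ A2)
    (h3 : ∀ n ∈ Icc 1 M, Sq n → n ∈ A3)
    (h4 : ∀ n ∈ Icc 1 M, (gC - 3 * s) * (ε₁ * μ) ≤ WM n → n ∈ A4)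
    (hpt : ∀ n ∈ Icc 1 M, ¬ Sq n → (Fn n + LV n) - WM n ≤ cf n)
    (hlow : ∀ n ∈ Icc 1 M, ε₁ * gC * Nf n ≤ LV n) : (A0.card : ℝ) ≤ ρ * M := by
  classical
  have hsub : A0 ⊆ ((A1 ∪ A2) ∪ A3) ∪ A4 := by
    intro n hn
    obtain ⟨hn1, hn2⟩ := h0 n hn
    by_contra hcon
    rw [mem_union, mem_union, mem_union] at hcon
    push Not at hcon
    obtain ⟨⟨⟨q1, q2⟩, q3⟩, q4⟩ := hcon
    have q1 : |Nf n - μ| ≤ εl * μ := not_lt.1 fun h => q1 (h1 n hn1 h)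
    have q2 : -(ε₁ * s * μ) ≤ Fn n := not_lt.1 fun h => q2 (h2 n hn1 h)
    have q3 : ¬ Sq n := fun h => q3 (h3 n hn1 h)
    have q4 : WM n < (gC - 3 * s) * (ε₁ * μ) := not_le.1 fun h => q4 (h4 n hn1 h)
    have hNs : (1 - εl) * μ ≤ Nf n := by
      have h1 := (abs_le.1 q1).1
      linarith
    have h1 := hpt n hn1 q3
    have h2 := hlow n hn1
    have h5 := mul_le_mul_of_nonneg_left hNs (show 0 ≤ ε₁ * gC by positivity)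
    have h5' : ε₁ * gC * ((1 - εl) * μ) = ε₁ * μ * gC - ε₁ * μ * (gC * εl) := by ring
    have h5'' : ε₁ * μ * (gC * εl) ≤ ε₁ * μ * s := mul_le_mul_of_nonneg_left hεl (by positivity)
    have e : (gC - 3 * s) * (ε₁ * μ) = ε₁ * μ * gC - 3 * (ε₁ * s * μ) := by ring
    rw [e] at q4
    have e2 : ε₁ * μ * s = ε₁ * s * μ := by ring
    linarith
  have hcard := (card_le_card hsub).trans ((card_union_le _ _).trans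
    (Nat.add_le_add_right ((card_union_le _ _).trans (Nat.add_le_add_right (card_union_le _ _) _)) _))
  have hcardr : (A0.card : ℝ) ≤ (((A1.card : ℝ) + (A2.card : ℝ)) + (A3.card : ℝ)) + (A4.card : ℝ) := by
    exact_mod_cast hcard
  have hM0 : (0 : ℝ) ≤ M := Nat.cast_nonneg _
  have hfin2 : εl * M ≤ ε' / 4 * M := mul_le_mul_of_nonneg_right hεl2 hM0
  have h34 : 0 ≤ ε' * M := by positivity
  linarith

end Pool.Agent.H37EP
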