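import Pool.Agent.H37EP.Lem2

/-!
# Integers with few prime factors above explicit proportions of the squares: assembly
-/

set_option autoImplicit false

namespace Pool.Agent.H37EP

open Finset Filter Pool.Agent.H373R2.T7 Pool.Agent.Y486.SQ Pool.Agent.Y882 Pool.Agent.W23.DC Pool.Agent.Y882.KW
open Pool.Agent.H37SQ
open Pool.Agent.Y862.SQ (rH leg z2 Ns V1)

open Classical in
/-- **Integers with few prime factors above an explicit proportion of the squares.** -/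
theorem main5 (hM1U : M1U) (r : ℕ) (θ τ₁ τ₂ ζ t υ lam S gL g1 g2 ρ : ℝ) (hθ : 0 < θ) (hθ1 : θ ≤ 1)
    (hτ1 : 0 < τ₁) (hτ1θ : τ₁ < θ / 4) (hτ2 : 0 < τ₂) (hτ2θ : τ₂ < θ / 2) (hζ0 : 0 < ζ) (hζt : ζ ≤ t) (htυ : t ≤ υ)
    (hυθ : 2 * υ < θ) (hlam : 0 < lam) (hS : 1 < S) (hrr : 1 / lam + S / υ ≤ r + 1)
    (HL : HLow τ₁ ζ υ gL) (H1 : HMid τ₁ ζ ζ t υ lam (lam / υ) g1) (H2 : HMid τ₂ ζ t υ υ lam (lam / υ) g2)
    (hg2 : 0 ≤ g2) (hρ : 0 < ρ) (hg : g2 < ρ * (gL - g1)) :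
    ∃ c δ : ℝ, 0 < c ∧ 0 < δ ∧ ∃ K : ℝ, 0 < K ∧ ∃ X0 : ℕ, ∀ X : ℕ, X0 ≤ X →
      ∀ Z M T : ℕ, (X : ℝ) ^ θ ≤ M → Z + M ≤ 2 * X → K * Real.log X ≤ T → (T : ℝ) ≤ Real.log X ^ 49 →
        (((Ioc Z (Z + M)).filter (fun n => (cn r ((X : ℝ) ^ δ) T n : ℝ) < c * T / Real.log X)).card : ℝ) ≤
          ρ * M := by
  have hυ0 : 0 < υ := by linarith
  have hυ1' : υ ≤ 1 := by linarith
  have hζυ : ζ ≤ υ := hζt.trans htυ
  obtain ⟨AL, e0L, hAL, he0L, HL'⟩ := HL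
  obtain ⟨A1, e01, hA1, he01, H1'⟩ := H1
  obtain ⟨A2, e02, hA2, he02, H2'⟩ := H2
  set gC : ℝ := gL - g1 with hgC
  have hgC0 : 0 < gC := by
    by_contra h
    push Not at h
    have := mul_nonpos_of_nonneg_of_nonpos hρ.le h
    linarith
  set Δ : ℝ := ρ * gC - g2 with hΔ
  have hΔ0 : 0 < Δ := by rw [hΔ]; linarith
  have hΔ1 : Δ ≤ ρ * gC := by rw [hΔ]; linarith
  set s : ℝ := Δ / (2 * (3 * ρ + 2)) with hs
  have hs0 : 0 < s := by positivity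
  have hs1 : s * (3 * ρ + 2) = Δ / 2 := by rw [hs]; field_simp
  have hs2 : 6 * s ≤ gC := by
    have h1 : s * (3 * ρ) ≤ ρ * gC / 2 := by
      have : 0 ≤ s * 2 := by positivity
      linarith
    have h2 : ρ * (6 * s) ≤ ρ * gC := by linarith
    exact le_of_mul_le_mul_left h2 hρ
  set ε' : ℝ := min (Δ / (4 * gC)) 1 with hε'
  have hε'0 : 0 < ε' := lt_min (by positivity) one_pos
  have hε'1 : ε' ≤ 1 := min_le_right _ _
  have hε'g : ε' * gC ≤ Δ / 4 := by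
    have h1 : ε' ≤ Δ / (4 * gC) := min_le_left _ _
    rw [le_div_iff₀ (by positivity)] at h1
    linarith
  have hε'ρ : ε' ≤ ρ := by
    have h1 : ε' * gC ≤ ρ * gC := by
      have : 0 < ρ * gC := by positivity
      linarith
    exact le_of_mul_le_mul_right h1 hgC0
  have hmark : g2 + 2 * s ≤ (ρ - ε') * (gC - 3 * s) := by
    have h1 : 0 ≤ ε' * (3 * s) := by positivity
    have e : (ρ - ε') * (gC - 3 * s) = ρ * gC - ε' * gC - s * (3 * ρ) + ε' * (3 * s) := by ring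
    have e2 : s * (3 * ρ + 2) = s * (3 * ρ) + 2 * s := by ring
    rw [e]
    linarith
  set f0 : ℝ := 4 * s with hf0d
  have hf0 : 0 < f0 := by positivity
  set a1 : ℝ := AL + A1 + 1 with ha1
  have ha10 : 0 < a1 := by positivity
  set aM : ℝ := A2 + 1 with haM
  have haM0 : 0 < aM := by positivity
  set κ3 : ℝ := s / (2 * (g2 + s)) with hκ3
  have hκ30 : 0 < κ3 := by positivity
  have hκ31 : κ3 ≤ 1 := by
    rw [hκ3, div_le_one (by positivity)]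
    linarith
  obtain ⟨C, x0, hC, HM2⟩ := M2
  obtain ⟨C', x0', hC', HU⟩ := hM1U
  obtain ⟨c1, C1, hc1, hC1, hV⟩ := Pool.Agent.Y810.SQ.V1_bounds
  set εl : ℝ := min (min (ε' / 4) (s / gC)) 1 with hεl
  have hεl0 : 0 < εl := by
    apply lt_min (lt_min (by positivity) (by positivity)) one_pos
  have hεl1 : εl ≤ 1 := min_le_right _ _
  have hεl2 : εl ≤ ε' / 4 := (min_le_left _ _).trans (min_le_left _ _)
  have hεl3 : gC * εl ≤ s := by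
    have h1 : εl ≤ s / gC := (min_le_left _ _).trans (min_le_right _ _)
    rw [le_div_iff₀ hgC0] at h1
    linarith
  obtain ⟨Kl, K0, y0, T0, hKl, Hlln⟩ := Pool.Agent.Y862.SQ.lln Pool.Agent.Y862.SQ.t_MOM εl hεl0 hεl1
  obtain ⟨K0', y0', T0', Hmom⟩ := moments
  obtain ⟨K0'', y0'', T0'', HmomU⟩ := momU (κ3 / 4) (by positivity)
  set σ : ℝ := min (θ / 2 - 2 * τ₁) ((θ - 2 * τ₂) / 2) with hσ
  have hσ0 : 0 < σ := lt_min (by linarith) (by linarith)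
  have hσ1 : σ ≤ θ / 2 - 2 * τ₁ := min_le_left _ _
  have hσ2 : σ ≤ (θ - 2 * τ₂) / 2 := min_le_right _ _
  set κ0 : ℝ := min (min (ε' * f0 ^ 2 / (147456 * a1 ^ 2)) (κ3 / 8)) (s / (12 * aM)) with hκ0
  have hκ00 : 0 < κ0 := lt_min (lt_min (by positivity) (by positivity)) (by positivity)
  have hκ0a : κ0 ≤ ε' * f0 ^ 2 / (147456 * a1 ^ 2) := (min_le_left _ _).trans (min_le_left _ _)
  have hκ0b : κ0 ≤ κ3 / 8 := (min_le_left _ _).trans (min_le_right _ _)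
  have hκ0c : κ0 * (12 * aM) ≤ s := by
    have h1 : κ0 ≤ s / (12 * aM) := min_le_right _ _
    rwa [le_div_iff₀ (by positivity)] at h1
  set e0 : ℝ := min (min (min (min ζ 1) (min e0L (min e01 e02))) (θ / 2 / (K0'' + 1)))
    (min (θ / 2 / (K0 + 1)) (θ / 2 / (K0' + 1))) with he0
  have he00 : 0 < e0 := by
    apply lt_min
    · apply lt_min
      · exact lt_min (lt_min hζ0 one_pos) (lt_min he0L (lt_min he01 he02))
      · positivity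
    · apply lt_min <;> positivity
  have hCC : 1 ≤ max C C' := hC.trans (le_max_left _ _)
  obtain ⟨b, hbCC, hb1, hbe, hbκ⟩ := pick_b (max C C') σ e0 κ0 hCC hσ0 he00 hκ00
  have hbC : C ≤ b := (le_max_left _ _).trans hbCC
  have hbC' : C' ≤ b := (le_max_right _ _).trans hbCC
  set Cm : ℕ := max C C' with hCm
  have hC0 : (0 : ℝ) < Cm := by exact_mod_cast hCC
  have hb0 : (0 : ℝ) < b := by exact_mod_cast hb1
  set ε₁ : ℝ := σ / (Cm * b) with hε₁d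
  have hε₁ : 0 < ε₁ := by positivity
  have hε₁A : ε₁ ≤ min (min ζ 1) (min e0L (min e01 e02)) :=
    hbe.trans ((min_le_left _ _).trans (min_le_left _ _))
  have hε₁ζ : ε₁ ≤ ζ := hε₁A.trans ((min_le_left _ _).trans (min_le_left _ _))
  have hε₁1 : ε₁ ≤ 1 := hε₁A.trans ((min_le_left _ _).trans (min_le_right _ _))
  have hε₁L : ε₁ ≤ e0L := hε₁A.trans ((min_le_right _ _).trans (min_le_left _ _))
  have hε₁e1 : ε₁ ≤ e01 := hε₁A.trans ((min_le_right _ _).trans ((min_le_right _ _).trans (min_le_left _ _)))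
  have hε₁e2 : ε₁ ≤ e02 := hε₁A.trans ((min_le_right _ _).trans ((min_le_right _ _).trans (min_le_right _ _)))
  have hε₁K : ε₁ * K0 ≤ θ / 2 := by
    have h1 : ε₁ ≤ θ / 2 / (K0 + 1) := hbe.trans ((min_le_right _ _).trans (min_le_left _ _))
    rw [le_div_iff₀ (by positivity)] at h1
    linarith
  have hε₁K' : ε₁ * K0' ≤ θ / 2 := by
    have h1 : ε₁ ≤ θ / 2 / (K0' + 1) := hbe.trans ((min_le_right _ _).trans (min_le_right _ _))
    rw [le_div_iff₀ (by positivity)] at h1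
    linarith
  have hε₁K'' : ε₁ * K0'' ≤ θ / 2 := by
    have h1 : ε₁ ≤ θ / 2 / (K0'' + 1) := hbe.trans ((min_le_left _ _).trans (min_le_right _ _))
    rw [le_div_iff₀ (by positivity)] at h1
    linarith
  have hε₁Cb : ε₁ * (Cm * b) = σ := by rw [hε₁d]; field_simp
  have hε₁υ : ε₁ ≤ υ := hε₁ζ.trans hζυ
  obtain ⟨ηL, hηL, HL2⟩ := HL' ε₁ hε₁ hε₁L
  obtain ⟨η1, hη1, H12⟩ := H1' ε₁ hε₁ hε₁e1
  obtain ⟨η2, hη2, H22⟩ := H2' ε₁ hε₁ hε₁e2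
  set η : ℝ := min ηL (min η1 η2) with hη
  have hη0 : 0 < η := lt_min hηL (lt_min hη1 hη2)
  set m : ℕ := ⌈(S + 1) / ε₁⌉₊ with hm
  have hmS1 : (S + 1) / ε₁ ≤ m := Nat.le_ceil _
  have hmS : S / ε₁ ≤ m := (div_le_div_of_nonneg_right (by linarith) hε₁.le).trans hmS1
  have hmτ1 : τ₁ / ε₁ ≤ m := (div_le_div_of_nonneg_right (by linarith) hε₁.le).trans hmS1
  have hmτ2 : τ₂ / ε₁ ≤ m := (div_le_div_of_nonneg_right (by linarith) hε₁.le).trans hmS1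
  set G0 : ℝ := ε₁ * f0 with hG0
  have hG00 : 0 < G0 := by positivity
  set Pb : ℝ := 3 / ε₁ with hPb
  have hPb0 : 0 < Pb := by positivity
  set B : ℝ := a1 * 2 ^ m + a1 * Pb with hB
  have hB0 : 0 < B := by positivity
  set κ1 : ℝ := 4 * (κ0 * ε₁ ^ 4) with hκ1
  have hκ10 : 0 < κ1 := by positivity
  have hκ1le : κ1 ≤ 4 * (ε' * f0 ^ 2 / (147456 * a1 ^ 2) * ε₁ ^ 4) := by
    rw [hκ1]
    apply mul_le_mul_of_nonneg_left _ (by norm_num)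
    exact mul_le_mul_of_nonneg_right hκ0a (by positivity)
  set g4 : ℝ := ε' / 16 * (G0 / 4) ^ 2 with hg4
  have hg40 : 0 < g4 := by positivity
  set ρ' : ℝ := g4 / a1 ^ 2 with hρ'
  have hρ'0 : 0 < ρ' := by positivity
  set μ0 : ℝ := max 1 (max Kl (12 * B ^ 2 / g4)) with hμ0
  have hμ01 : 1 ≤ μ0 := le_max_left _ _
  set K : ℝ := 2 * ε₁ * μ0 / c1 with hK
  have hKpos : 0 < K := by positivity
  set BM : ℝ := aM * 2 ^ m with hBM
  have hBM0 : 0 < BM := by positivity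
  set κV : ℝ := c1 / (2 * ε₁) with hκd
  have hκp : 0 < κV := by positivity
  refine ⟨s * c1 / 4, 2 * ζ, by positivity, by linarith, K, hKpos, ?_⟩
  obtain ⟨Yr, HR⟩ := reg ε₁ υ (min η 1) hε₁ hυ1' (lt_min hη0 one_pos)
  -- the conditions on `X`
  have hlogt : Tendsto (fun X : ℕ => Real.log X) atTop atTop :=
    Real.tendsto_log_atTop.comp tendsto_natCast_atTop_atTop
  have ev1 : ∀ᶠ X : ℕ in atTop, ((T0 : ℝ) + T0' + T0'' + 1) / K ≤ Real.log X := hlogt.eventually_ge_atTop _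
  have ev2 : ∀ᶠ X : ℕ in atTop, (x0 : ℝ) + x0' + y0 + y0' + y0'' + 3 + 48 / κ1 ≤ (X : ℝ) ^ (2 * ε₁) :=
    ((tendsto_rpow_atTop (by linarith)).comp tendsto_natCast_atTop_atTop).eventually_ge_atTop _
  have ev3 := ev_log 49 2 (2 * ε₁) (by norm_num) (by linarith)
  have ev4 := ev_log 245 1 θ (by norm_num) hθ
  have ev6 : ∀ᶠ X : ℕ in atTop, (5 : ℝ) ≤ (X : ℝ) ^ (2 * S - 2) :=
    ((tendsto_rpow_atTop (by linarith)).comp tendsto_natCast_atTop_atTop).eventually_ge_atTop _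
  have ev7 := ev_log 49 3 (2 * ζ) (by norm_num) (by linarith)
  have ev8 := ev_log 98 (4 * 2 ^ (2 * m) / ρ') σ (by positivity) hσ0
  have ev8' := ev_log 98 1 (θ / 2) (by norm_num) (by linarith)
  have ev9 := ev_log 49 (32 / ε') (2 * ζ) (by positivity) (by linarith)
  have ev9' := ev_log 49 (16 / ε') (θ - 2 * υ) (by positivity) (by linarith)
  have ev10 := ev_log 1 (8 / (κ3 * κV)) (θ / 2) (by positivity) (by linarith)
  have ev12 := ev_log 1 (BM * (4 / (ε₁ * s * κV))) σ (by positivity) hσ0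
  obtain ⟨X1, hX1⟩ := eventually_atTop.1 ((ev1.and (ev2.and (ev3.and ev4))).and
    ((ev6.and (ev7.and (ev8.and ev8'))).and ((ev9.and (ev9'.and ((eventually_ge_atTop 3).and
      (eventually_ge_atTop Yr)))).and (ev10.and ev12))))
  refine ⟨X1, fun X hX Z M T hM hZM hKT hTX => ?_⟩
  obtain ⟨⟨v1, v2, v3, v4⟩, ⟨v6, v7, v8, v8'⟩, ⟨v9, v9', vX3, vXr⟩, v10, v12⟩ := hX1 X hX
  rw [pow_one] at v10 v12
  obtain ⟨l, hl⟩ : ∃ l : ℝ, l = Real.log X := ⟨_, rfl⟩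
  rw [← hl] at v1 v3 v4 v7 v8 v8' v9 v9' v10 v12 hKT hTX ⊢
  have hq1 : (0 : ℝ) ≤ x0 := Nat.cast_nonneg _
  have hq2 : (0 : ℝ) ≤ y0 := Nat.cast_nonneg _
  have hq3 : (0 : ℝ) ≤ y0' := Nat.cast_nonneg _
  have hq3' : (0 : ℝ) ≤ y0'' := Nat.cast_nonneg _
  have hq3'' : (0 : ℝ) ≤ x0' := Nat.cast_nonneg _
  have hq4 : 0 < 48 / κ1 := by positivity
  obtain ⟨y, x, Y, hSc⟩ := scale X ε₁ σ c1 (Cm * b) vX3 hε₁ hc1 (fun y hy => (hV y hy).1)
    (by linarith only [v2, hq1, hq2, hq3, hq3', hq3'', hq4]) (by push_cast; exact hε₁Cb.le)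
  have hXr := hSc.X3
  have hX0 : (0 : ℝ) < X := by linarith only [hXr]
  have hX1r : (1 : ℝ) ≤ X := by linarith only [hXr]
  have hl1 : 1 ≤ l := by
    rw [hl, ← Real.log_exp 1]
    apply Real.log_le_log (Real.exp_pos _)
    linarith only [Real.exp_one_lt_d9, hXr]
  have hl0 : 0 < l := by linarith only [hl1]
  have hl49 : 1 ≤ l ^ 49 := one_le_pow₀ hl1
  have hY2 := hSc.Y2
  have hYp := hSc.Yp
  have hyx0 : x0 ≤ y := hSc.ge x0 _ v2 (by linarith only [hq1, hq2, hq3, hq3', hq3'', hq4])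
  have hyx0' : x0' ≤ y := hSc.ge x0' _ v2 (by linarith only [hq1, hq2, hq3, hq3', hq3'', hq4])
  have hyy0 : y0 ≤ y := hSc.ge y0 _ v2 (by linarith only [hq1, hq2, hq3, hq3', hq3'', hq4])
  have hyy0' : y0' ≤ y := hSc.ge y0' _ v2 (by linarith only [hq1, hq2, hq3, hq3', hq3'', hq4])
  have hyy0'' : y0'' ≤ y := hSc.ge y0'' _ v2 (by linarith only [hq1, hq2, hq3, hq3', hq3'', hq4])
  have hyκ : 48 / (y : ℝ) ≤ κ1 := by
    have h1 : 48 / κ1 ≤ y := by linarith only [hSc.yge, v2, hq1, hq2, hq3, hq3', hq3'']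
    have hy0 : (0 : ℝ) < y := lt_of_lt_of_le hq4 h1
    rw [div_le_iff₀ hκ10] at h1
    rw [div_le_iff₀ hy0]
    linarith only [h1]
  obtain ⟨hTT0, hTT0', hTT0'', hT1, hTy, hT5, hT4, hTM, hT2⟩ := sizes X M T y l θ K _ T0 T0' T0'' hl1 hKpos v1 v3
    hSc.yge v4 hM hKT hTX
  have hyK0 : y ^ K0 ≤ M := hSc.yK K0 M θ hε₁K hM
  have hyK0' : y ^ K0' ≤ M := hSc.yK K0' M θ hε₁K' hM
  have hyK0'' : y ^ K0'' ≤ M := hSc.yK K0'' M θ hε₁K'' hM
  have hy2 := hSc.y2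
  have hyCb : y ^ (C * b) ≤ x :=
    (Nat.pow_le_pow_right (by omega) (Nat.mul_le_mul_right b (le_max_left _ _))).trans hSc.yx
  have hyCb' : y ^ (C' * b) ≤ x :=
    (Nat.pow_le_pow_right (by omega) (Nat.mul_le_mul_right b (le_max_right _ _))).trans hSc.yx
  have hM0 : (0 : ℝ) ≤ M := Nat.cast_nonneg _
  obtain ⟨μ, hμ⟩ : ∃ μ : ℝ, μ = T * V1 y := ⟨_, rfl⟩
  have hVy : c1 / (2 * ε₁ * l) ≤ V1 y := by rw [hl]; exact hSc.Vy
  obtain ⟨hμ1, hμKl, hμB, hμge⟩ := mu_large T (V1 y) K c1 ε₁ l μ0 μ Kl B g4 hμ hc1 hε₁ hl0 hμ0 hK hKT hg40 hVy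
  -- the weights
  obtain ⟨cL, hLb, hLsup, hLN, hLval⟩ := HL2 Y hY2
  obtain ⟨cA, hAb, hAsup, hAN, hAval⟩ := H12 Y hY2
  obtain ⟨cM, hMb, hMsup, hMN, hMval⟩ := H22 Y hY2
  obtain ⟨cC, hcC⟩ : ∃ cC : Finset ℕ → ℝ, cC = fun D => cL D - cA D := ⟨_, rfl⟩
  have hreg : ∀ j ∈ Icc 1 T, Mer (pr Y ε₁ υ) (tt Y) (fun p => (rH {j} p : ℝ) / p) ε₁ υ (min η 1) := by
    intro j hj
    rw [mem_Icc] at hj
    apply HR Y (vXr.trans hSc.XY) j hj.1
    have hlY : Real.log Y = 2 * l := by rw [hSc.lY, hl]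
    have h1 : (j : ℝ) ≤ T := by exact_mod_cast hj.2
    calc (j : ℝ) ≤ T := h1
      _ ≤ l ^ 49 := hTX
      _ ≤ (Real.log Y) ^ 49 := pow_le_pow_left₀ hl0.le (by rw [hlY]; linarith only [hl0]) 49
      _ ≤ (Real.log Y) ^ 50 := pow_le_pow_right₀ (by rw [hlY]; linarith only [hl1]) (by norm_num)
  have hregη : ∀ j ∈ Icc 1 T, ∀ η' : ℝ, η ≤ η' →
      Mer (pr Y ε₁ υ) (tt Y) (fun p => (rH {j} p : ℝ) / p) ε₁ υ η' := fun j hj η' hηη a b ha hab hb =>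
    (hreg j hj a b ha hab hb).trans ((min_le_left _ _).trans hηη)
  have hvlow : ∀ j ∈ Icc 1 T, ε₁ * gC ≤ vj (pr Y ε₁ υ) cC j := by
    intro j hj
    have h1 := hLval _ (fun p _ => by positivity) (hregη j hj ηL (min_le_left _ _))
    have h2 := hAval _ (fun p _ => by positivity) (hregη j hj η1 ((min_le_right _ _).trans (min_le_left _ _)))
    have h3 : vj (pr Y ε₁ υ) cC j = VV (pr Y ε₁ υ) cL (fun p => (rH {j} p : ℝ) / p) -
        VV (pr Y ε₁ υ) cA (fun p => (rH {j} p : ℝ) / p) := by rw [hcC]; exact VV_sub _ _ _ _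
    rw [h3, hgC, mul_sub]
    linarith only [h1, h2]
  have hvup : ∀ j ∈ Icc 1 T, vj (pr Y ε₁ υ) cM j ≤ ε₁ * g2 := by
    intro j hj
    exact hMval _ (fun p _ => by positivity) (hregη j hj η2 ((min_le_right _ _).trans (min_le_right _ _)))
  have hPi : ∀ j ∈ Icc 1 T, Pi' (pr Y ε₁ υ) j ≤ Pb := fun j hj =>
    Pi'_le Y ε₁ υ (min η 1) j hε₁ hε₁υ hυ1' (min_le_right _ _) (hreg j hj)
  have hclabs : ∀ D, |cC D| ≤ a1 := by
    intro D
    have h1 := abs_sub (cL D) (cA D)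
    have h2 := hLb D
    have h3 := hAb D
    rw [hcC, ha1]
    simp only
    linarith only [h1, h2, h3]
  have hcMabs : ∀ D, |cM D| ≤ aM := fun D => (hMb D).trans (by rw [haM]; linarith only)
  have hNle := N_le X Y Z M T S hXr hYp hZM hTM v6
  have hw : ∀ j ∈ Icc 1 T, ∀ n ∈ Icc 1 M, |wj (pr Y ε₁ υ) cC Z j n| ≤ B := by
    intro j hj n hn
    have hj1 := (mem_Icc.1 hj).1
    refine (wj_le Y hY2 ε₁ υ S hε₁ cC a1 hclabs m hmS Z j n (by omega) (hNle n hn j hj)).trans ?_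
    rw [hB]
    have : 0 ≤ a1 * Pb := by positivity
    linarith only [this]
  have hv : ∀ j ∈ Icc 1 T, |vj (pr Y ε₁ υ) cC j| ≤ B := by
    intro j hj
    refine (vj_le _ cC a1 hclabs j).trans ?_
    have h1 := mul_le_mul_of_nonneg_left (hPi j hj) ha10.le
    have : 0 ≤ a1 * 2 ^ m := by positivity
    rw [hB]
    linarith only [h1, this]
  have hPp : ∀ p ∈ pr Y ε₁ υ, p.Prime ∧ y < p := by
    intro p hp
    obtain ⟨h1, h2, _⟩ := Pool.Agent.Y882.PX.pr_mem Y p ε₁ υ hY2 hp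
    refine ⟨h1, ?_⟩
    have : (y : ℝ) < p := hSc.ylt.trans_le h2
    exact_mod_cast this
  obtain ⟨L, hLd⟩ : ∃ L : ℕ, L = ⌊(X : ℝ) ^ (2 * τ₁)⌋₊ := ⟨_, rfl⟩
  obtain ⟨L2, hL2d⟩ : ∃ L : ℕ, L = ⌊(X : ℝ) ^ (2 * τ₂)⌋₊ := ⟨_, rfl⟩
  have hcLm : ∀ D ⊆ pr Y ε₁ υ, cC D ≠ 0 → D.card ≤ m ∧ ∏ p ∈ D, p ≤ L := by
    intro D hD hne
    have h1 : ((∏ p ∈ D, p : ℕ) : ℝ) ≤ (Y : ℝ) ^ τ₁ := by
      by_cases h : cL D = 0
      · apply hAsup D hD
        intro h2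
        apply hne
        rw [hcC]
        simp only
        rw [h, h2, sub_zero]
      · exact hLsup D hD h
    refine ⟨?_, ?_⟩
    · apply few_large Y hY2 ε₁ τ₁ hε₁ D _ m hmτ1 h1
      intro p hp
      exact (Pool.Agent.Y882.PX.pr_mem Y p ε₁ υ hY2 (hD hp)).2.1
    · rw [hLd]
      apply Nat.le_floor
      rw [← hYp]
      exact h1
  have hcMm : ∀ D ⊆ pr Y ε₁ υ, cM D ≠ 0 → D.card ≤ m ∧ ∏ p ∈ D, p ≤ L2 := by
    intro D hD hne
    have h1 := hMsup D hD hne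
    refine ⟨?_, ?_⟩
    · apply few_large Y hY2 ε₁ τ₂ hε₁ D _ m hmτ2 h1
      intro p hp
      exact (Pool.Agent.Y882.PX.pr_mem Y p ε₁ υ hY2 (hD hp)).2.1
    · rw [hL2d]
      apply Nat.le_floor
      rw [← hYp]
      exact h1
  have hLr : (L : ℝ) ≤ (X : ℝ) ^ (2 * τ₁) := by rw [hLd]; exact Nat.floor_le (by positivity)
  have hL2r : (L2 : ℝ) ≤ (X : ℝ) ^ (2 * τ₂) := by rw [hL2d]; exact Nat.floor_le (by positivity)
  obtain ⟨Fn, hFn⟩ : ∃ Fn : ℕ → ℝ, Fn = fun n => ∑ j ∈ Icc 1 T,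
    ok Z y j n * (wj (pr Y ε₁ υ) cC Z j n - vj (pr Y ε₁ υ) cC j) := ⟨_, rfl⟩
  have hG0μ : 0 < G0 / 4 * μ := by positivity
  have hE2 : (((Icc 1 M).filter (fun n => Fn n < -(G0 / 4 * μ))).card : ℝ) ≤ ε' / 4 * M := by
    have key := HM2 b hbC x y hyx0 (by omega) hyCb Z M T hTy (pr Y ε₁ υ) cC a1 m L Pb B hPp hclabs hcLm hPi hw hv
      hB0.le
    obtain ⟨hN2, hN1⟩ := Hmom Z M y T hyy0' hyK0' hTT0' hT1 hT4 (by rw [← hμ]; exact hμ1)
    rw [← hμ] at hN2 hN1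
    rw [hFn]
    exact cheb M _ (G0 / 4 * μ) (ε' / 4 * M) hG0μ (sec_fin X M T θ σ τ₁ (√(x : ℝ)) L l μ a1 Pb B ((1 / 2 : ℝ) ^ b)
      (48 / (y : ℝ)) κ1 ρ' g4 G0 ε' f0 ε₁ κ0 _ _ m _ hX1r hM hl0.le hT2 (Real.sqrt_nonneg _) hSc.sx
      (by linarith only [hσ1, hτ1]) hσ1 (Nat.cast_nonneg _) hLr hμ1 ha10 hε₁ hε'0 hρ'0 hρ' hg4 hG0 hPb hbκ
      (by positivity) (by positivity) hyκ hκ1 hκ1le hμB hN2 hN1 v8 v8' key)
  have hG04 : G0 / 4 = ε₁ * s := by rw [hG0, hf0d]; ring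
  rw [hG04] at hE2
  -- the mean of the large primes
  have keyU := HU b hbC' x y hyx0' (by omega) hyCb' Z M T (pr Y ε₁ υ) cM aM m L2 Pb (ε₁ * g2) hPp hcMabs hcMm hPi
    hvup (by positivity)
  have hmU := HmomU Z M y T hyy0'' hyK0'' hTT0''
  rw [← hμ] at hmU
  obtain ⟨WM, hWM⟩ : ∃ WM : ℕ → ℝ, WM = fun n => ∑ j ∈ Icc 1 T, ok Z y j n * wj (pr Y ε₁ υ) cM Z j n := ⟨_, rfl⟩
  have hT0' : (0 : ℝ) < T := by exact_mod_cast hT1
  have hVκ : κV / l ≤ V1 y := by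
    rw [hκd, div_div]
    exact hVy
  have hμ0' : 0 < μ := lt_of_lt_of_le one_pos hμ1
  obtain ⟨r1', r2', r3⟩ := errs X M T (V1 y) κV l κ3 θ σ τ₂ ε₁ s aM BM (√(x : ℝ)) L2 μ m hX1r hM hT0' hκp hl0 hκ30
    hVκ (by linarith only [hσ1, hτ1]) (by linarith only [hσ2]) hε₁ hs0 haM0 hBM (Real.sqrt_nonneg _) hSc.sx
    (Nat.cast_nonneg _) hL2r hμ v10 v12
  have hbκ2 : (1 / 2 : ℝ) ^ b ≤ κ0 * ε₁ ^ 2 := by
    refine hbκ.trans (mul_le_mul_of_nonneg_left ?_ hκ00.le)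
    exact pow_le_pow_of_le_one hε₁.le hε₁1 (by norm_num)
  have hbκ0 : (1 / 2 : ℝ) ^ b ≤ κ0 := by
    refine hbκ2.trans ?_
    have h1 : ε₁ ^ 2 ≤ 1 := pow_le_one₀ hε₁.le hε₁1
    exact mul_le_of_le_one_right hκ00.le h1
  have k1 : aM * (1 / 2 : ℝ) ^ b * Pb ≤ ε₁ * (s / 4) := by
    calc aM * (1 / 2 : ℝ) ^ b * Pb ≤ aM * (κ0 * ε₁ ^ 2) * Pb := by gcongr
      _ = ε₁ / 4 * (κ0 * (12 * aM)) := by
          rw [hPb]
          field_simp
          ring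
      _ ≤ ε₁ / 4 * s := mul_le_mul_of_nonneg_left hκ0c (by positivity)
      _ = _ := by ring
  have hMμ0 : (0 : ℝ) ≤ M * μ := by positivity
  have hNs0 : 0 ≤ ∑ n ∈ Icc 1 M, (Ns y T (n + Z) : ℝ) := sum_nonneg fun n _ => Nat.cast_nonneg _
  have hmean : ∑ n ∈ Icc 1 M, WM n ≤ ε₁ * (g2 + s) * (M * μ) := by
    rw [hWM]
    refine keyU.trans ?_
    apply real_mean ε₁ g2 s κ3 ((1 / 2 : ℝ) ^ b) _ _ _ _ (M * μ) hε₁ hg2 hs0 hκ30 hκ31
      (by rw [hκ3]; field_simp) (by positivity) (hbκ0.trans hκ0b) (by positivity) k1 (by positivity) _ hMμ0 r3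
    linarith only [hmU, r1', r2']
  have hWM0 : ∀ n ∈ Icc 1 M, 0 ≤ WM n := by
    intro n _
    rw [hWM]
    apply sum_nonneg
    intro j _
    apply mul_nonneg (ok_nonneg _ _ _ _)
    refine le_trans ?_ (hMN ((n + Z) ^ 2 + j))
    apply mul_nonneg
    · split_ifs <;> norm_num
    · apply sum_nonneg
      intro q hq
      unfold pr at hq
      rw [mem_filter] at hq
      apply mul_nonneg
      · have h1 : lam / υ * tt Y q ≤ lam / υ * υ := mul_le_mul_of_nonneg_left hq.2.2.2.le (by positivity)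
        rw [div_mul_cancel₀ _ hυ0.ne'] at h1
        linarith only [h1]
      · split_ifs <;> norm_num
  have hg3 : 0 < gC - 3 * s := by linarith only [hs2, hgC0, hs0]
  have hE4 := markov M WM hWM0 ((gC - 3 * s) * (ε₁ * μ)) ((ρ - ε') * M) (by positivity) (by
    refine hmean.trans ?_
    have h1 : g2 + s ≤ (ρ - ε') * (gC - 3 * s) := by linarith only [hmark, hs0]
    have h2 := mul_le_mul_of_nonneg_right h1 (show 0 ≤ ε₁ * (M * μ) by positivity)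
    linarith only [h2])
  -- the law of large numbers
  have hE1 := Hlln Z M y T hyy0 hyK0 hTT0 (by omega) (by rw [← hμ]; exact hμKl)
  rw [card_shift, ← hμ] at hE1
  -- squares
  have hE3 := few_sq Y hY2 ζ υ Z M T (by rw [hYp]; linarith only [v7, hl49])
    (by rw [hYp]; linarith only [v7, hl49, hTX])
  have hE3' : (T : ℝ) * (4 * M / (Y : ℝ) ^ ζ + 2 * (Y : ℝ) ^ υ) ≤ ε' / 4 * M :=
    sq_err X M T ((Y : ℝ) ^ ζ) ((Y : ℝ) ^ υ) l ζ υ θ ε' hX0 hT0'.le hTX hM hε'0 (hYp ζ) (hYp υ) v9 v9'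
  -- conclusion
  rw [card_shift]
  have hthr : s * c1 / 4 * T / l ≤ ε₁ * s * μ := by
    calc s * c1 / 4 * T / l ≤ s * c1 / 2 * T / l := by gcongr; norm_num
      _ = ε₁ * s * (T * (c1 / (2 * ε₁ * l))) := by
          field_simp
      _ ≤ ε₁ * s * μ := mul_le_mul_of_nonneg_left hμge (by positivity)
  refine fin_step2 M _ _ _ _ _ (fun n => (Ns y T (n + Z) : ℝ)) Fn
    (fun n => ∑ j ∈ Icc 1 T, ok Z y j n * vj (pr Y ε₁ υ) cC j) WM
    (fun n => (cn r ((X : ℝ) ^ (2 * ζ)) T (n + Z) : ℝ))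
    (fun n => ∃ j ∈ Icc 1 T, ∃ q ∈ pr Y ζ υ, q ^ 2 ∣ (n + Z) ^ 2 + j) μ s ε₁ gC εl ε' ρ (s * c1 / 4 * T / l) hμ0'
    hε₁ hgC0 hεl3 hεl2 hε'0.le hthr hE1 hE2 (hE3.trans hE3') hE4 (fun n hn => mem_filter.1 hn)
    (fun n hn h => mem_filter.2 ⟨hn, h⟩) (fun n hn h => mem_filter.2 ⟨hn, h⟩) (fun n hn h => mem_filter.2 ⟨hn, h⟩)
    (fun n hn h => mem_filter.2 ⟨hn, h⟩) ?_ ?_
  · intro n hn1 q3
    push Not at q3
    have hdet := det Y hY2 ε₁ ζ υ lam S r hζυ hυ0 hυ1' hlam hrr y hSc.hy (fun D => (cL D - cA D) - cM D)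
      (fun N => WB_split Y ε₁ ζ t υ lam (lam / υ) hζt htυ N cL cA cM _ (hLN N) (hAN N) (hMN N)) Z T n
      (hNle n hn1) (fun j hj q hq => q3 j hj q hq)
    rw [hYp] at hdet
    refine le_trans (le_of_eq ?_) hdet
    rw [hFn, hWM]
    simp only
    rw [← sum_add_distrib, ← sum_sub_distrib]
    apply sum_congr rfl
    intro j _
    have e1 : wj (pr Y ε₁ υ) (fun D => (cL D - cA D) - cM D) Z j n =
        wj (pr Y ε₁ υ) cC Z j n - wj (pr Y ε₁ υ) cM Z j n := by rw [hcC]; exact VV_sub _ _ _ _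
    rw [e1]
    ring
  · intro n _
    show ε₁ * gC * (Ns y T (n + Z) : ℝ) ≤ ∑ j ∈ Icc 1 T, ok Z y j n * vj (pr Y ε₁ υ) cC j
    rw [← sum_ok, mul_sum]
    apply sum_le_sum
    intro j hj
    rw [mul_comm]
    exact mul_le_mul_of_nonneg_left (hvlow j hj) (ok_nonneg _ _ _ _)

end Pool.Agent.H37EP
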