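import Pool.Agent.Y882.KW.Lsw4
import Pool.Agent.H37SQ.First

/-!
# Project EP: integers with few prime factors above explicit proportions of the squares. Statements of the jobs

Notation of `Pool.Agent.Y882.KW.lsw4` (file `Pool/Agent/Y882/KW/Lsw4.lean`, starting file; its proof is the model of
`LOW`, `SEGC` and `SEGV`): `pr Y u v` are the primes `p ≤ Y` with `u ≤ tt Y p < v`, `tt Y p = log p / log Y`;
`VV P c g = ∑ T ⊆ P, c T ∏ p ∈ T, g p`; `Mer` is Mertens' formula; `SF A0 F f` are the functions of the linear sieve.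
-/

set_option autoImplicit false

namespace Pool.Agent.H37EP

open Finset Pool.Agent.W23.DC Pool.Agent.Y882 Pool.Agent.Y882.KW

open Classical in
/-- lower bound sieve weights of level `Y ^ τ` for the integers without prime factor in `pr Y ε₁ ζ`, with value
`≥ ε₁ gL` (as weights on the subsets of `pr Y ε₁ υ`) -/
def HLow (τ ζ υ gL : ℝ) : Prop :=
  ∃ A ε0 : ℝ, 0 ≤ A ∧ 0 < ε0 ∧ ∀ ε₁ : ℝ, 0 < ε₁ → ε₁ ≤ ε0 → ∃ η : ℝ, 0 < η ∧ ∀ Y : ℕ, 2 ≤ Y →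
    ∃ c : Finset ℕ → ℝ, (∀ T, |c T| ≤ A) ∧
      (∀ T ⊆ pr Y ε₁ υ, c T ≠ 0 → ((∏ p ∈ T, p : ℕ) : ℝ) ≤ (Y : ℝ) ^ τ) ∧
      (∀ N : ℕ, VV (pr Y ε₁ υ) c (fun p => if p ∣ N then 1 else 0) ≤
        if ∀ p ∈ pr Y ε₁ ζ, ¬ p ∣ N then 1 else 0) ∧
      ∀ g : ℕ → ℝ, (∀ p ∈ pr Y ε₁ υ, 0 ≤ g p) → Mer (pr Y ε₁ υ) (tt Y) g ε₁ υ η →
        ε₁ * gL ≤ VV (pr Y ε₁ υ) c g

open Classical in
/-- upper bound sieve weights of level `Y ^ τ` for the sum of `a - b tt Y q` over the prime factors `q ∈ pr Y u v` of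
the integers without prime factor in `pr Y ε₁ ζ`, with value `≤ ε₁ gM` (as weights on the subsets of `pr Y ε₁ υ`) -/
def HMid (τ ζ u v υ a b gM : ℝ) : Prop :=
  ∃ A ε0 : ℝ, 0 ≤ A ∧ 0 < ε0 ∧ ∀ ε₁ : ℝ, 0 < ε₁ → ε₁ ≤ ε0 → ∃ η : ℝ, 0 < η ∧ ∀ Y : ℕ, 2 ≤ Y →
    ∃ c : Finset ℕ → ℝ, (∀ T, |c T| ≤ A) ∧
      (∀ T ⊆ pr Y ε₁ υ, c T ≠ 0 → ((∏ p ∈ T, p : ℕ) : ℝ) ≤ (Y : ℝ) ^ τ) ∧
      (∀ N : ℕ, (if ∀ p ∈ pr Y ε₁ ζ, ¬ p ∣ N then 1 else 0) *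
        ∑ q ∈ pr Y u v, (a - b * tt Y q) * (if q ∣ N then 1 else 0) ≤
          VV (pr Y ε₁ υ) c (fun p => if p ∣ N then 1 else 0)) ∧
      ∀ g : ℕ → ℝ, (∀ p ∈ pr Y ε₁ υ, 0 ≤ g p) → Mer (pr Y ε₁ υ) (tt Y) g ε₁ υ η →
        VV (pr Y ε₁ υ) c g ≤ ε₁ * gM

/-- **LOW** (theorem `Pool.Agent.H37EP.LOW.t : LOW`, file `Pool/Agent/H37EP/LOW.lean`).

Proof: the lower bound part (`cL1`) of `lsw4`: `c T = lc P (tt Y) K false τ' ζ T` for `T ⊆ P = pr Y ε₁ ζ`, `0` otherwise;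
`A = 1`, `ε0 = min ζ 1`. The value is `MM P (tt Y) g K false τ' ζ ≥ ε₁ / ζ * f (τ' / ζ) - η'` by
`Pool.Agent.W505.DC.MT Pool.Agent.W505.DC.MI A0 F f hSF ε₁ η' K`, and `f (τ' / ζ) = A0 log (τ' / ζ - 1) / (τ' / ζ)` by
`hSF.f4`; take `η' = ε₁ (A0 log (τ' / ζ - 1) / τ' - gL)`. Products `≤ Y ^ τ'` as in `lsw4`, and `τ' ≤ τ`. -/
def LOW : Prop := ∀ (A0 : ℝ) (F f : ℝ → ℝ), SF A0 F f → ∀ τ' τ ζ υ gL : ℝ, 0 < ζ → 2 * ζ < τ' → τ' ≤ 4 * ζ →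
  τ' ≤ τ → τ' ≤ 1 → ζ ≤ υ → υ ≤ 1 → gL < A0 * Real.log (τ' / ζ - 1) / τ' → HLow τ ζ υ gL

/-- **SEGC** (theorem `Pool.Agent.H37EP.SEGC.t : SEGC`, file `Pool/Agent/H37EP/SEGC.lean`): one block of primes `q`, with
one fixed level `ta` for all of them.

Proof: as the part `cq` of `lsw4` with `R = pr Y u v`, `P = pr Y ε₁ ζ` (disjoint as `ζ ≤ u`), and with the constant
functions `ta`, `za` in place of `ta q = τ - tt Y q`, `za q = min ζ (ta q)`: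
`c T = ∑ q ∈ R, if q ∈ T ∧ T.erase q ⊆ P then (a - b tt Y q) lc P (tt Y) K true ta za (T.erase q) else 0`, at most one
summand is nonzero, `A = a`, `ε0 = min za 1`. Upper bound for the indicator: `lc_ind_up` needs the primes of `P` below
`za` only (the upper bound weights for `za ≤ ζ` are `≥ 1` if no prime of `P` below `za` divides `N`, `≥ 0` always).
Value: `∑ q ∈ R, g q (a - b tt Y q) MM P (tt Y) g K true ta za ≤ (ε₁ / za * F (ta / za) + η') ∑ q ∈ R, g q (a - b tt Y q)`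
and `∑ q ∈ R, g q (a - b tt Y q) ≤ a log (v / u) - b (v - u) + κ` by `Pool.Agent.W505.DC.MI` with `h x = a - b x`
(`∫ x in u..v, (a - b x) / x = a log (v / u) - b (v - u)`; the lemma `mid` used in `lsw4` shows how). Size:
`∑ p ∈ T, tt Y p ≤ tt Y q + ta ≤ v + ta ≤ τ`. -/
def SEGC : Prop := ∀ (A0 : ℝ) (F f : ℝ → ℝ), SF A0 F f → ∀ τ ζ u v υ a b ta za gM : ℝ, 0 < za → za ≤ ζ → za ≤ ta →
  ζ ≤ u → u ≤ v → v ≤ υ → υ ≤ 1 → ta + v ≤ τ → τ ≤ 1 → 0 ≤ a → 0 ≤ b → b * v ≤ a →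
  F (ta / za) / za * (a * Real.log (v / u) - b * (v - u)) < gM → HMid τ ζ u v υ a b gM

/-- **SEGV** (theorem `Pool.Agent.H37EP.SEGV.t : SEGV`, file `Pool/Agent/H37EP/SEGV.lean`): one block of primes `q`, with
the full level `τ - tt Y q`.

Proof: exactly the part `cq` of `lsw4` with `R = pr Y u v`, `ta q = τ - tt Y q`, `za q = min ζ (ta q)`; `τ - u ≤ 3 ζ`
gives `ta q ≤ 3 za q`, hence `F (ta q / za q) = A0 za q / ta q` (`hSF.F3`); `A = a`, `ε0 = min (min ζ (τ - v)) 1`; the sum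
`∑ q ∈ R, g q (a - b tt Y q) / (τ - tt Y q)` by the lemma `mid` (or `MI`), and
`∫ x in u..v, (a - b x) / (τ - x) / x = (a / τ) log (v / u) + (a / τ - b) log ((τ - u) / (τ - v))`
(partial fractions; see `Pool.Agent.T6.H57.cond_log` or `Pool.Agent.Y882.KW` for a similar integral). -/
def SEGV : Prop := ∀ (A0 : ℝ) (F f : ℝ → ℝ), SF A0 F f → ∀ τ ζ u v υ a b gM : ℝ, 0 < ζ → ζ ≤ u → u ≤ v → v < τ →
  v ≤ υ → υ ≤ 1 → τ ≤ 1 → τ - u ≤ 3 * ζ → 0 ≤ a → 0 ≤ b → b * v ≤ a →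
  A0 * ((a / τ) * Real.log (v / u) + (a / τ - b) * Real.log ((τ - u) / (τ - v))) < gM → HMid τ ζ u v υ a b gM

/-- **F4** (theorem `Pool.Agent.H37EP.F4.t : F4`, file `Pool/Agent/H37EP/F4.lean`).

Proof: by `hSF.eF` at `s = 4` and `hSF.f4`, `4 F(4) = A0 + ∫ x in 3..4, A0 log (x - 2) / (x - 1) = A0 (1 + I)`,
`I = ∫ v in 0..1, log (1 + v) / (2 + v) = 0.14722...`. Upper bound `I ≤ 0.148`: for instance
`log (1 + v) ≤ v (6 + v) / (6 + 4 v)` for `v ≥ 0` (gives `I ≤ 0.14783`),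
or cut `[0, 1]` into pieces and use that `log (1 + v) / (2 + v)` is increasing (then about 400 pieces are needed), or
use `log (1 + v) ≤ log (1 + w) + (v - w) / (1 + w)` on 8 pieces. `A0 > 0` is `hSF.pos`. -/
def F4 : Prop := ∀ (A0 : ℝ) (F f : ℝ → ℝ), SF A0 F f → F 4 ≤ A0 * 1.148 / 4

open Pool.Agent.H37SQ in
/-- **M1U** (theorem `Pool.Agent.H37EP.M1U.t : M1U`, file `Pool/Agent/H37EP/M1U.lean`): the first moment of the weights,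
upper bound. The lower bound is `Pool.Agent.H37SQ.M1` (file `Pool/Agent/H37SQ/First.lean`), whose proof is the model.

Proof: put `δ = 2 ^ (-b) ≤ 1 / 2`. For one `j` (as in `E1`): `∑ n ∈ Sf, w_j = ∑ D, c D ∑ n ∈ Sf, ind D ≤
M V vj + a1 δ Pi' M V + a1 2 ^ m √x L ≤ (G + a1 δ Pb) M V + a1 2 ^ m √x L`, and `M V ≤ |Sf| + δ M V + √x`, hence
`M V ≤ (1 + 2 δ) (|Sf| + √x)`. Sum over `j`; `∑ j, |Sf_j| = ∑ n, Ns y T (n + Z)` as in `M1`. -/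
def M1U : Prop := ∃ C x0 : ℕ, 1 ≤ C ∧ ∀ b : ℕ, C ≤ b → ∀ x y : ℕ, x0 ≤ y → 1 ≤ y → y ^ (C * b) ≤ x →
    ∀ (Z M T : ℕ) (P : Finset ℕ) (c : Finset ℕ → ℝ) (a1 : ℝ) (m L : ℕ) (Pb G : ℝ),
      (∀ p ∈ P, p.Prime ∧ y < p) → (∀ D, |c D| ≤ a1) → (∀ D ⊆ P, c D ≠ 0 → D.card ≤ m ∧ ∏ p ∈ D, p ≤ L) →
      (∀ j ∈ Icc 1 T, Pi' P j ≤ Pb) → (∀ j ∈ Icc 1 T, vj P c j ≤ G) → 0 ≤ G →
      ∑ n ∈ Icc 1 M, ∑ j ∈ Icc 1 T, ok Z y j n * wj P c Z j n ≤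
        (G + a1 * (1 / 2 : ℝ) ^ b * Pb) * (1 + 2 * (1 / 2 : ℝ) ^ b) *
          (∑ n ∈ Icc 1 M, (Pool.Agent.Y862.SQ.Ns y T (n + Z) : ℝ) + T * √(x : ℝ)) +
        T * (a1 * (2 ^ m * √(x : ℝ)) * L)

end Pool.Agent.H37EP
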